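import Pool.Agent.Helper60.PCF.Base

set_option autoImplicit false
set_option linter.unusedSectionVars false

namespace Pool.Agent.Helper60.PCF

open Finset

variable {V α : Type} [Fintype V] [DecidableEq V] [DecidableEq α]

/-- representatives -/
theorem a2_repr {e : Finset V} {v : V} (hve : v ∈ e) (φ : V → α) (n0 : ℕ) (hn : n0 + 1 ≤ #e)
    (h1 : ¬ HasUniq e φ) (h2 : #(e.image φ) ≤ n0) :
    ∃ q : (_ : Finset V) × (V → V), q.1 ∈ powersetCard n0 (e.erase v) ∧
      (∀ t ∈ e \ q.1, q.2 t ∈ q.1 ∧ φ t = φ (q.2 t)) ∧ ∀ t, t ∉ e \ q.1 → q.2 t = t := by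
  classical
  -- the colour of v occurs on e.erase v
  have hex : ∃ x ∈ e, x ≠ v ∧ φ x = φ v := by
    by_contra hcon
    push Not at hcon
    apply h1
    refine ⟨φ v, ?_⟩
    rw [card_eq_one]
    refine ⟨v, ?_⟩
    ext x
    rw [mem_filter, mem_singleton]
    constructor
    · rintro ⟨hx, hxv⟩
      by_contra hne
      exact hcon x hx hne hxv
    · rintro rfl
      exact ⟨hve, rfl⟩
  obtain ⟨x₀, hx₀, hx₀v, hx₀φ⟩ := hex
  have himg : ∀ z ∈ e.image φ, ∃ y ∈ e.erase v, φ y = z := by
    intro z hz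
    obtain ⟨y, hy, hyz⟩ := mem_image.mp hz
    by_cases hyv : y = v
    · exact ⟨x₀, mem_erase.mpr ⟨hx₀v, hx₀⟩, by rw [hx₀φ, ← hyv, hyz]⟩
    · exact ⟨y, mem_erase.mpr ⟨hyv, hy⟩, hyz⟩
  have : Nonempty V := ⟨v⟩
  choose! g hg using himg
  set R₀ := (e.image φ).image g with hR₀
  have hR₀sub : R₀ ⊆ e.erase v := by
    intro y hy
    obtain ⟨z, hz, rfl⟩ := mem_image.mp hy
    exact (hg z hz).1
  have hR₀card : #R₀ ≤ n0 := card_image_le.trans h2
  have hcard : n0 ≤ #(e.erase v) := by
    rw [card_erase_of_mem hve]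
    omega
  obtain ⟨R, hR1, hR2, hR3⟩ := exists_subsuperset_card_eq hR₀sub hR₀card hcard
  refine ⟨⟨R, fun t => if t ∈ e \ R then g (φ t) else t⟩, mem_powersetCard.mpr ⟨hR2, hR3⟩, ?_, ?_⟩
  · intro t ht
    simp only at ht ⊢
    rw [if_pos ht]
    have hte : t ∈ e := (mem_sdiff.mp ht).1
    have hz : φ t ∈ e.image φ := mem_image_of_mem φ hte
    exact ⟨hR1 (mem_image_of_mem g hz), (hg _ hz).2.symm⟩
  · intro t ht
    simp only at ht ⊢
    rw [if_neg ht]

/-- PIECE A2 (few colours). PROOF. Let `p = (ψ, c) ∈ B`, `φ = Function.update ψ v c`, `m = #e`. `#(e.image φ) ≤ n0` and no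
colour occurs exactly once on `e` under `φ`. In particular the colour `c = φ v` occurs on some `x ∈ e`, `x ≠ v`, so
`(e.erase v).image φ = e.image φ`. As `#(e.image φ) ≤ n0 ≤ m - 1 = #(e.erase v)` we can choose `R ⊆ e.erase v` with `#R = n0` and
`R.image φ = e.image φ`; let `T = e \ R`, and for `t ∈ T` choose `ρ t ∈ R` with `φ t = φ (ρ t)`. The map
`p ↦ (R, ρ, res d (S₀ \ T) ψ)` is injective. -/
theorem few {d : α} {C : Finset V → Finset (V → α)} (hC : Fam d C) {e S₀ : Finset V} {v : V}
    (hv : v ∉ S₀) (hve : v ∈ e) (hes : e ⊆ insert v S₀) {b : ℝ} (hb : 0 < b)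
    (hg : Grow C e S₀ b) (n0 : ℕ) (hn : n0 + 1 ≤ #e) (B : Finset ((V → α) × α))
    (hB : ∀ p ∈ B, p.1 ∈ C S₀ ∧ ¬ HasUniq e (Function.update p.1 v p.2) ∧
      #(e.image (Function.update p.1 v p.2)) ≤ n0) :
    (#B : ℝ) * b ^ (#e - n0 - 1) ≤
      ((#e - 1).choose n0 : ℝ) * n0 ^ (#e - n0) * #(C S₀) := by
  classical
  have hchoice : ∀ p : (V → α) × α, ∃ q : (_ : Finset V) × (V → V), p ∈ B →
      (q.1 ∈ powersetCard n0 (e.erase v) ∧
      (∀ t ∈ e \ q.1, q.2 t ∈ q.1 ∧
        Function.update p.1 v p.2 t = Function.update p.1 v p.2 (q.2 t)) ∧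
      ∀ t, t ∉ e \ q.1 → q.2 t = t) := by
    intro p
    by_cases hp : p ∈ B
    · obtain ⟨_, h2, h3⟩ := hB p hp
      obtain ⟨q, hq⟩ := a2_repr hve (Function.update p.1 v p.2) n0 hn h2 h3
      exact ⟨q, fun _ => hq⟩
    · exact ⟨⟨∅, id⟩, fun h => absurd h hp⟩
  choose Q hQ using hchoice
  set T := (powersetCard n0 (e.erase v)).sigma fun R =>
    (Fintype.piFinset fun t => if t ∈ e \ R then R else {t}) ×ˢ C (S₀ \ (e \ R)) with hT
  have hBT : #B ≤ #T := by
    apply card_le_card_of_injOn (fun p : (V → α) × α =>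
      (⟨(Q p).1, ((Q p).2, res d (S₀ \ (e \ (Q p).1)) p.1)⟩ :
        (_ : Finset V) × ((V → V) × (V → α))))
    · intro p hp
      have hp' : p ∈ B := hp
      obtain ⟨h1, h2, h3⟩ := hQ p hp'
      rw [mem_coe, hT, mem_sigma]
      refine ⟨h1, ?_⟩
      rw [mem_product]
      refine ⟨?_, hC.her S₀ _ _ sdiff_subset (hB p hp').1⟩
      rw [Fintype.mem_piFinset]
      intro t
      by_cases ht : t ∈ e \ (Q p).1
      · simp only [if_pos ht]
        exact (h2 t ht).1
      · simp only [if_neg ht, mem_singleton]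
        exact h3 t ht
    · intro p hp p' hp' heq
      have hpB : p ∈ B := hp
      have hpB' : p' ∈ B := hp'
      obtain ⟨h1, h2, h3⟩ := hQ p hpB
      obtain ⟨h1', h2', h3'⟩ := hQ p' hpB'
      simp only [Sigma.mk.injEq, heq_eq_eq, Prod.mk.injEq] at heq
      obtain ⟨e1, e2, e3⟩ := heq
      rw [← e1, ← e2] at h2'
      rw [← e1] at e3
      set R := (Q p).1 with hR
      set ρ := (Q p).2 with hρ
      have hRe : R ⊆ e.erase v := (mem_powersetCard.mp h1).1
      have hvR : v ∉ R := fun h => (mem_erase.mp (hRe h)).1 rfl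
      have hRS : ∀ x ∈ R, x ∈ S₀ \ (e \ R) := by
        intro x hx
        have hx1 := mem_erase.mp (hRe hx)
        rcases mem_insert.mp (hes hx1.2) with h | h
        · exact absurd h hx1.1
        · exact mem_sdiff.mpr ⟨h, fun h4 => (mem_sdiff.mp h4).2 hx⟩
      have hvT : v ∈ e \ R := mem_sdiff.mpr ⟨hve, hvR⟩
      have hres : ∀ x ∈ S₀ \ (e \ R), p.1 x = p'.1 x := by
        intro x hx
        have h4 := congrFun e3 x
        rw [res_apply_mem hx, res_apply_mem hx] at h4
        exact h4
      have hval : ∀ t ∈ e \ R, Function.update p.1 v p.2 t = Function.update p'.1 v p'.2 t := by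
        intro t ht
        obtain ⟨h4, h5⟩ := h2 t ht
        obtain ⟨_, h6⟩ := h2' t ht
        have hne : ρ t ≠ v := fun h => hvR (h ▸ h4)
        rw [h5, h6, Function.update_of_ne hne, Function.update_of_ne hne]
        exact hres _ (hRS _ h4)
      have hc : p.2 = p'.2 := by
        have h4 := hval v hvT
        rw [Function.update_self, Function.update_self] at h4
        exact h4
      have hψ : p.1 = p'.1 := by
        funext x
        by_cases hx : x ∈ S₀
        · by_cases hxT : x ∈ e \ R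
          · have hxv : x ≠ v := fun h => hv (h ▸ hx)
            have h4 := hval x hxT
            rw [Function.update_of_ne hxv, Function.update_of_ne hxv] at h4
            exact h4
          · exact hres x (mem_sdiff.mpr ⟨hx, hxT⟩)
        · rw [hC.out S₀ _ (hB p hpB).1 x hx, hC.out S₀ _ (hB p' hpB').1 x hx]
      exact Prod.ext hψ hc
  have hpow : 0 < b ^ (#e - n0 - 1) := pow_pos hb _
  have hTcard : (#T : ℝ) * b ^ (#e - n0 - 1) ≤
      ((#e - 1).choose n0 : ℝ) * n0 ^ (#e - n0) * #(C S₀) := by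
    rw [hT, card_sigma]
    push_cast
    rw [sum_mul]
    calc ∑ R ∈ powersetCard n0 (e.erase v),
          (#((Fintype.piFinset fun t => if t ∈ e \ R then R else {t}) ×ˢ C (S₀ \ (e \ R))) : ℝ) *
            b ^ (#e - n0 - 1)
        ≤ ∑ R ∈ powersetCard n0 (e.erase v), (n0 : ℝ) ^ (#e - n0) * #(C S₀) := by
          apply sum_le_sum
          intro R hR
          obtain ⟨hR1, hR2⟩ := mem_powersetCard.mp hR
          have hRe : R ⊆ e := hR1.trans (erase_subset _ _)
          have hvR : v ∉ R := fun h => (mem_erase.mp (hR1 h)).1 rfl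
          have hcardT : #(e \ R) = #e - n0 := by
            rw [card_sdiff_of_subset hRe, hR2]
          have hvT : v ∈ e \ R := mem_sdiff.mpr ⟨hve, hvR⟩
          have hpi : #(Fintype.piFinset fun t => if t ∈ e \ R then R else {t}) =
              n0 ^ (#e - n0) := by
            rw [Fintype.card_piFinset]
            have h4 : ∀ t : V, #(if t ∈ e \ R then R else {t}) =
                if t ∈ e \ R then n0 else 1 := by
              intro t
              split_ifs
              · exact hR2
              · simp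
            rw [prod_congr rfl fun t _ => h4 t, prod_ite, prod_const, prod_const_one, mul_one,
              filter_mem_eq_inter, univ_inter, hcardT]
          have hrem := removal hb.le hg ((e \ R).erase v)
            ((erase_subset _ _).trans sdiff_subset) S₀ Subset.rfl (by
              intro x hx
              rw [mem_erase, mem_sdiff] at hx
              rcases mem_insert.mp (hes hx.2.1) with h | h
              · exact absurd h hx.1
              · exact h)
          have hsets : S₀ \ ((e \ R).erase v) = S₀ \ (e \ R) := by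
            ext x
            simp only [mem_sdiff, mem_erase, not_and]
            constructor
            · rintro ⟨h5, h6⟩
              refine ⟨h5, fun h7 h8 => h6 (fun h9 => hv (h9 ▸ h5)) h7 h8⟩
            · rintro ⟨h5, h6⟩
              exact ⟨h5, fun _ => h6⟩
          rw [card_erase_of_mem hvT, hcardT, hsets] at hrem
          rw [card_product, hpi]
          push_cast
          calc (n0 : ℝ) ^ (#e - n0) * #(C (S₀ \ (e \ R))) * b ^ (#e - n0 - 1)
              = (n0 : ℝ) ^ (#e - n0) * (b ^ (#e - n0 - 1) * #(C (S₀ \ (e \ R)))) := by ring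
            _ ≤ (n0 : ℝ) ^ (#e - n0) * #(C S₀) :=
                mul_le_mul_of_nonneg_left hrem (pow_nonneg (Nat.cast_nonneg _) _)
      _ = ((#e - 1).choose n0 : ℝ) * n0 ^ (#e - n0) * #(C S₀) := by
          rw [sum_const, card_powersetCard, card_erase_of_mem hve, nsmul_eq_mul]
          ring
  have h5 : (#B : ℝ) ≤ #T := by exact_mod_cast hBT
  exact (mul_le_mul_of_nonneg_right h5 hpow.le).trans hTcard

end Pool.Agent.Helper60.PCF
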