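import Pool.Agent.Helper60.PCF.Base

set_option autoImplicit false
set_option linter.unusedSectionVars false

namespace Pool.Agent.Helper60.PCF

open Finset

variable {V α : Type} [Fintype V] [DecidableEq V] [DecidableEq α]

private theorem a3_exists {e : Finset V} {v : V} (hve : v ∈ e) (φ : V → α)
    (hu : ¬ HasUniq e φ) (K : Finset α) (hK : K ⊆ (e.image φ).erase (φ v)) :
    ∃ (Y : Finset V) (x : V), Y ⊆ e.erase v ∧ x ∈ e ∧ x ≠ v ∧ x ∉ Y ∧ φ x = φ v ∧
      (∀ y ∈ Y, φ y ∈ K) ∧ ∀ z, z ∈ K ↔ #((e \ Y).filter fun u => φ u = z) = 1 := by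
  classical
  have hr : ∀ z : α, ∃ r : V, z ∈ e.image φ → r ∈ e ∧ φ r = z := by
    intro z
    by_cases hz : z ∈ e.image φ
    · obtain ⟨r, hr, hrz⟩ := mem_image.mp hz
      exact ⟨r, fun _ => ⟨hr, hrz⟩⟩
    · exact ⟨v, fun h => absurd h hz⟩
  choose r hr using hr
  have hvK : φ v ∉ K := fun h => (mem_erase.mp (hK h)).1 rfl
  have hx : ∃ x ∈ e, x ≠ v ∧ φ x = φ v := by
    by_contra hcon
    push Not at hcon
    apply hu
    refine ⟨φ v, ?_⟩
    rw [card_eq_one]
    refine ⟨v, ?_⟩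
    ext u
    rw [mem_filter, mem_singleton]
    constructor
    · rintro ⟨hue, huv⟩
      by_contra hne
      exact hcon u hue hne huv
    · rintro rfl
      exact ⟨hve, rfl⟩
  obtain ⟨x, hxe, hxv, hxc⟩ := hx
  refine ⟨e.filter fun y => φ y ∈ K ∧ y ≠ r (φ y), x, ?_, hxe, hxv, ?_, hxc, ?_, ?_⟩
  · intro y hy
    rw [mem_filter] at hy
    refine mem_erase.mpr ⟨?_, hy.1⟩
    rintro rfl
    exact hvK hy.2.1
  · intro hy
    rw [mem_filter] at hy
    rw [hxc] at hy
    exact hvK hy.2.1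
  · intro y hy
    rw [mem_filter] at hy
    exact hy.2.1
  · intro z
    constructor
    · intro hz
      have hzi : z ∈ e.image φ := (mem_erase.mp (hK hz)).2
      obtain ⟨hre, hrz⟩ := hr z hzi
      rw [card_eq_one]
      refine ⟨r z, ?_⟩
      ext u
      simp only [mem_filter, mem_sdiff, mem_singleton]
      constructor
      · rintro ⟨⟨hue, hnot⟩, huz⟩
        by_contra hne
        apply hnot
        refine ⟨hue, ?_, ?_⟩
        · rw [huz]; exact hz
        · rw [huz]; exact hne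
      · rintro rfl
        refine ⟨⟨hre, ?_⟩, hrz⟩
        rintro ⟨_, _, h⟩
        apply h
        rw [hrz]
    · intro hz
      by_contra hzK
      apply hu
      refine ⟨z, ?_⟩
      rw [← hz]
      congr 1
      ext u
      simp only [mem_filter, mem_sdiff]
      constructor
      · rintro ⟨hue, huz⟩
        refine ⟨⟨hue, ?_⟩, huz⟩
        rintro ⟨_, h, _⟩
        rw [huz] at h
        exact hzK h
      · rintro ⟨⟨hue, _⟩, huz⟩
        exact ⟨hue, huz⟩

private theorem a3_decode {d : α} {e S₀ : Finset V} {v : V}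
    (hv : v ∉ S₀) (hes : e ⊆ insert v S₀) {ψ ψ' : V → α} {c c' : α} {K K' : Finset α}
    {Y Y₁ : Finset V} {x : V} (hout : ∀ u, u ∉ S₀ → ψ u = d) (hout' : ∀ u, u ∉ S₀ → ψ' u = d)
    (hKc : #K = 2) (ch : Finset α → α) (hch : ∀ L : Finset α, #L = 2 → ch L ∈ L)
    (hY : Y ⊆ e.erase v) (hx : x ∈ e) (hxv : x ≠ v) (hxY : x ∉ Y)
    (h1 : Function.update ψ v c x = Function.update ψ v c v)
    (h1' : Function.update ψ' v c' x = Function.update ψ' v c' v)
    (h2 : ∀ y ∈ Y, Function.update ψ v c y ∈ K)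
    (h2' : ∀ y ∈ Y, Function.update ψ' v c' y ∈ K')
    (h3 : ∀ z, z ∈ K ↔ #((e \ Y).filter fun u => Function.update ψ v c u = z) = 1)
    (h3' : ∀ z, z ∈ K' ↔ #((e \ Y).filter fun u => Function.update ψ' v c' u = z) = 1)
    (h4 : Y₁ = Y.filter fun y => Function.update ψ v c y = ch K)
    (h4' : Y₁ = Y.filter fun y => Function.update ψ' v c' y = ch K')
    (h5 : res d (S₀ \ Y) ψ = res d (S₀ \ Y) ψ') : ψ = ψ' ∧ c = c' ∧ K = K' := by
  classical
  have hup : ∀ (f : V → α) (a : α) (u : V), u ≠ v → Function.update f v a u = f u := by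
    intro f a u hu
    exact Function.update_of_ne hu a f
  have hsame : ∀ u, u ∈ S₀ → u ∉ Y → ψ u = ψ' u := by
    intro u hu huY
    have := congrFun h5 u
    rwa [res_apply_mem (mem_sdiff.mpr ⟨hu, huY⟩), res_apply_mem (mem_sdiff.mpr ⟨hu, huY⟩)] at this
  have hin : ∀ u, u ∈ e → u ≠ v → u ∈ S₀ := by
    intro u hu huv
    rcases mem_insert.mp (hes hu) with h | h
    · exact absurd h huv
    · exact h
  have hc : c = c' := by
    rw [hup _ _ _ hxv, Function.update_self] at h1
    rw [hup _ _ _ hxv, Function.update_self] at h1'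
    rw [← h1, ← h1']
    exact hsame x (hin x hx hxv) hxY
  have hout2 : ∀ u ∈ e \ Y, Function.update ψ v c u = Function.update ψ' v c' u := by
    intro u hu
    obtain ⟨hue, huY⟩ := mem_sdiff.mp hu
    by_cases huv : u = v
    · subst huv
      rw [Function.update_self, Function.update_self, hc]
    · rw [hup _ _ _ huv, hup _ _ _ huv]
      exact hsame u (hin u hue huv) huY
  have hK : K = K' := by
    ext z
    rw [h3 z, h3' z]
    have : ((e \ Y).filter fun u => Function.update ψ v c u = z) =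
        ((e \ Y).filter fun u => Function.update ψ' v c' u = z) := by
      apply filter_congr
      intro u hu
      rw [hout2 u hu]
    rw [this]
  subst hK
  have hYs : ∀ y ∈ Y, ψ y = ψ' y := by
    intro y hy
    have hyv : y ≠ v := (mem_erase.mp (hY hy)).1
    have e1 := h2 y hy
    have e2 := h2' y hy
    have e3 : y ∈ Y₁ ↔ Function.update ψ v c y = ch K := by
      rw [h4, mem_filter]
      exact ⟨fun h => h.2, fun h => ⟨hy, h⟩⟩
    have e4 : y ∈ Y₁ ↔ Function.update ψ' v c' y = ch K := by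
      rw [h4', mem_filter]
      exact ⟨fun h => h.2, fun h => ⟨hy, h⟩⟩
    rw [hup _ _ _ hyv] at e1 e3
    rw [hup _ _ _ hyv] at e2 e4
    by_cases hm : y ∈ Y₁
    · rw [e3.mp hm, e4.mp hm]
    · have n1 : ψ y ≠ ch K := fun h => hm (e3.mpr h)
      have n2 : ψ' y ≠ ch K := fun h => hm (e4.mpr h)
      have hcard : #(K.erase (ch K)) = 1 := by
        rw [card_erase_of_mem (hch K hKc), hKc]
      obtain ⟨a, ha⟩ := card_eq_one.mp hcard
      have m1 : ψ y ∈ K.erase (ch K) := mem_erase.mpr ⟨n1, e1⟩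
      have m2 : ψ' y ∈ K.erase (ch K) := mem_erase.mpr ⟨n2, e2⟩
      rw [ha, mem_singleton] at m1 m2
      rw [m1, m2]
  refine ⟨?_, hc, rfl⟩
  funext u
  by_cases huS : u ∈ S₀
  · by_cases huY : u ∈ Y
    · exact hYs u huY
    · exact hsame u huS huY
  · rw [hout u huS, hout' u huS]

/-- PIECE A3 (many colours). PROOF. Let `p = (ψ, c) ∈ B`, `φ = Function.update ψ v c`. No colour occurs exactly once on `e`
under `φ`, and `e.image φ` has at least `n0 + 1` elements, so `(e.image φ).erase c` has at least `n0` elements and at least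
`n0.choose 2` two-element subsets `K`. So `#B * n0.choose 2 ≤ #{(p, K)}`. For such `(p, K)`, `K = {z₁, z₂}`: the class
`A z = e.filter (φ · = z)` has at least two elements for `z ∈ K`, does not contain `v` (as `c ∉ K`); fix a representative
`r z ∈ A z` and put `Y = (A z₁ \ {r z₁}) ∪ (A z₂ \ {r z₂}) ⊆ e.erase v`. On `e \ Y` the colours occurring exactly once (under `φ`)
are exactly the two elements of `K` (all other colours of `e.image φ` occur at least twice on `e`, and not on `Y`). Moreover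
`c` occurs on some `x ∈ e`, `x ≠ v`, `x ∉ Y` (it occurs at least twice on `e`, and `φ` takes values in `K ∌ c` on `Y`).
The data `(Y, x, τ, res d (S₀ \ Y) ψ)` where `τ : Y → Bool` says for `y ∈ Y` whether `φ y` is the colour of the first or the second
uniquely coloured vertex of `e \ Y` (fix any linear order on `V`, or let `τ` be the subset `Y' ⊆ Y` of those `y` with the same
colour as `y₀`-side ...; simplest: `τ` = the subset `Y₁ = {y ∈ Y : φ y = φ r}` where `r` is one of the two uniquely coloured vertices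
of `e \ Y`, chosen by a fixed choice function depending only on the pair of these two vertices) determines `(p, K)`:
`ψ` is known on `S₀ \ Y`, `c = ψ x`, so `φ` is known on `e \ Y`, so `K` is known, then `φ` on `Y` is known, then `ψ` on `S₀`, and
`ψ = d` outside `S₀`. Count of the data: `∑ Y ⊆ e.erase v, #e * 2 ^ #Y * #(C (S₀ \ Y))` and `b ^ #Y * #(C (S₀ \ Y)) ≤ #(C S₀)` by
`removal`, so it is at most `#e * #(C S₀) * ∑ Y ⊆ e.erase v, (2 / b) ^ #Y = #e * (1 + 2 / b) ^ (#e - 1) * #(C S₀)`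
(`Finset.sum_pow_mul_eq_add_pow` or `Finset.prod_one_add`/`Finset.prod_add`). -/
theorem many {d : α} {C : Finset V → Finset (V → α)} (hC : Fam d C) {e S₀ : Finset V} {v : V}
    (hv : v ∉ S₀) (hve : v ∈ e) (hes : e ⊆ insert v S₀) {b : ℝ} (hb : 0 < b)
    (hg : Grow C e S₀ b) (n0 : ℕ) (B : Finset ((V → α) × α))
    (hB : ∀ p ∈ B, p.1 ∈ C S₀ ∧ ¬ HasUniq e (Function.update p.1 v p.2) ∧
      n0 + 1 ≤ #(e.image (Function.update p.1 v p.2))) :
    (#B : ℝ) * n0.choose 2 ≤ #e * (1 + 2 / b) ^ (#e - 1) * #(C S₀) := by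
  classical
  haveI : Nonempty V := ⟨v⟩
  -- choice of an element
  have hchx : ∀ L : Finset α, ∃ a : α, #L = 2 → a ∈ L := by
    intro L
    by_cases hL : #L = 2
    · have : L.Nonempty := by
        rw [← card_pos, hL]
        norm_num
      obtain ⟨a, ha⟩ := this
      exact ⟨a, fun _ => ha⟩
    · exact ⟨d, fun h => absurd h hL⟩
  choose ch hch using hchx
  set ph : ((V → α) × α) → V → α := fun p => Function.update p.1 v p.2 with hph
  set T : Finset (Σ _ : (V → α) × α, Finset α) :=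
    B.sigma (fun p => powersetCard 2 ((e.image (ph p)).erase p.2)) with hT
  have hTcard : (#B : ℝ) * n0.choose 2 ≤ #T := by
    have h1 : ∑ p ∈ B, n0.choose 2 ≤ #T := by
      rw [hT, card_sigma]
      apply sum_le_sum
      intro p hp
      rw [card_powersetCard]
      apply Nat.choose_le_choose
      have h2 := (hB p hp).2.2
      have h3 : #(e.image (ph p)) - 1 ≤ #((e.image (ph p)).erase p.2) := pred_card_le_card_erase
      have h4 : n0 + 1 ≤ #(e.image (ph p)) := h2
      omega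
    rw [sum_const, smul_eq_mul] at h1
    exact_mod_cast h1
  have hkey : ∀ t : (Σ _ : (V → α) × α, Finset α), ∃ (Y : Finset V) (x : V), t ∈ T →
      (Y ⊆ e.erase v ∧ x ∈ e ∧ x ≠ v ∧ x ∉ Y ∧ ph t.1 x = ph t.1 v ∧
      (∀ y ∈ Y, ph t.1 y ∈ t.2) ∧
      ∀ z, z ∈ t.2 ↔ #((e \ Y).filter fun u => ph t.1 u = z) = 1) := by
    intro t
    by_cases ht : t ∈ T
    · have ht' := ht
      rw [hT, mem_sigma, mem_powersetCard] at ht'
      obtain ⟨hp, hK, hKc⟩ := ht'
      have hvv : ph t.1 v = t.1.2 := Function.update_self v t.1.2 t.1.1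
      have hK' : t.2 ⊆ (e.image (ph t.1)).erase (ph t.1 v) := by
        rw [hvv]; exact hK
      obtain ⟨Y, x, h⟩ := a3_exists hve (ph t.1) (hB t.1 hp).2.1 t.2 hK'
      exact ⟨Y, x, fun _ => h⟩
    · exact ⟨∅, v, fun h => absurd h ht⟩
  choose Yf xf hf using hkey
  set D : Finset (Σ _ : Finset V, V × Finset V × (V → α)) :=
    (e.erase v).powerset.sigma (fun Y => e ×ˢ (Y.powerset ×ˢ C (S₀ \ Y))) with hD
  set code : (Σ _ : (V → α) × α, Finset α) → (Σ _ : Finset V, V × Finset V × (V → α)) :=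
    fun t => ⟨Yf t, xf t, (Yf t).filter (fun y => ph t.1 y = ch t.2), res d (S₀ \ Yf t) t.1.1⟩
    with hcode
  have hmaps : ∀ t ∈ T, code t ∈ D := by
    intro t ht
    obtain ⟨g1, g2, g3, g4, g5, g6, g7⟩ := hf t ht
    rw [hT, mem_sigma, mem_powersetCard] at ht
    rw [hD, mem_sigma]
    refine ⟨mem_powerset.mpr g1, ?_⟩
    rw [mem_product, mem_product]
    refine ⟨g2, mem_powerset.mpr (filter_subset _ _), ?_⟩
    exact hC.her S₀ (S₀ \ Yf t) t.1.1 sdiff_subset (hB t.1 ht.1).1
  have hinj : Set.InjOn code (T : Set (Σ _ : (V → α) × α, Finset α)) := by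
    intro t ht t' ht' heq
    rw [mem_coe] at ht ht'
    obtain ⟨g1, g2, g3, g4, g5, g6, g7⟩ := hf t ht
    obtain ⟨k1, k2, k3, k4, k5, k6, k7⟩ := hf t' ht'
    rw [hT, mem_sigma, mem_powersetCard] at ht ht'
    have q1 : Yf t = Yf t' := congrArg (fun s => s.1) heq
    have q2 : xf t = xf t' := congrArg (fun s => s.2.1) heq
    have q3 : (Yf t).filter (fun y => ph t.1 y = ch t.2) =
        (Yf t').filter (fun y => ph t'.1 y = ch t'.2) := congrArg (fun s => s.2.2.1) heq
    have q4 : res d (S₀ \ Yf t) t.1.1 = res d (S₀ \ Yf t') t'.1.1 :=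
      congrArg (fun s => s.2.2.2) heq
    rw [← q1] at k1 k4 k6 k7 q3 q4
    rw [← q2] at k2 k3 k4 k5
    obtain ⟨r1, r2, r3⟩ := a3_decode (d := d) (Y₁ := (Yf t).filter (fun y => ph t.1 y = ch t.2))
      hv hes (hC.out S₀ _ (hB t.1 ht.1).1)
      (hC.out S₀ _ (hB t'.1 ht'.1).1) ht.2.2 ch hch g1 g2 g3 g4 g5 k5 g6 k6 g7 k7 rfl q3 q4
    obtain ⟨⟨ψ, c⟩, K⟩ := t
    obtain ⟨⟨ψ', c'⟩, K'⟩ := t'
    simp only at r1 r2 r3
    subst r1 r2 r3
    rfl
  have hTD : #T ≤ #D := card_le_card_of_injOn code hmaps hinj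
  have hDc : (#D : ℝ) ≤ #e * (1 + 2 / b) ^ (#e - 1) * #(C S₀) := by
    rw [hD, card_sigma]
    push_cast
    have hterm : ∀ Y ∈ (e.erase v).powerset,
        ((#(e ×ˢ (Y.powerset ×ˢ C (S₀ \ Y))) : ℕ) : ℝ) ≤
          (#e * #(C S₀)) * ((2 / b) ^ #Y * 1 ^ (#(e.erase v) - #Y)) := by
      intro Y hY
      rw [mem_powerset] at hY
      have hYe : Y ⊆ e := hY.trans (erase_subset _ _)
      have hYS : Y ⊆ S₀ := by
        intro y hy
        obtain ⟨hyv, hye⟩ := mem_erase.mp (hY hy)
        rcases mem_insert.mp (hes hye) with h | h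
        · exact absurd h hyv
        · exact h
      have hrem := removal hb.le hg Y hYe S₀ (Subset.refl _) hYS
      rw [card_product, card_product, card_powerset]
      push_cast
      rw [one_pow, mul_one, div_pow]
      have hbp : (0 : ℝ) < b ^ #Y := pow_pos hb _
      have h1 : (#(C (S₀ \ Y)) : ℝ) ≤ #(C S₀) / b ^ #Y := by
        rw [le_div_iff₀ hbp, mul_comm]
        exact hrem
      calc (#e : ℝ) * (2 ^ #Y * #(C (S₀ \ Y))) ≤ #e * (2 ^ #Y * (#(C S₀) / b ^ #Y)) := by
            gcongr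
        _ = #e * #(C S₀) * (2 ^ #Y / b ^ #Y) := by ring
    refine (sum_le_sum hterm).trans (le_of_eq ?_)
    rw [← mul_sum, sum_pow_mul_eq_add_pow, card_erase_of_mem hve, add_comm (2 / b) 1]
    ring
  have : (#T : ℝ) ≤ #D := by exact_mod_cast hTD
  linarith

end Pool.Agent.Helper60.PCF
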