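import Pool.Agent.Helper60.PCF.Base
import Pool.Agent.Helper60.PCF.St.A2
import Pool.Agent.Helper60.PCF.St.A3

set_option autoImplicit false
set_option linter.unusedSectionVars false

namespace Pool.Agent.Helper60.PCF

open Finset

variable {V α : Type} [Fintype V] [DecidableEq V] [DecidableEq α]

/-- without a unique colour there are at most half as many colours as vertices -/
theorem a5_image_le {e : Finset V} {φ : V → α} (h : ¬ HasUniq e φ) :
    2 * #(e.image φ) ≤ #e := by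
  have h1 : #e = ∑ z ∈ e.image φ, #(e.filter fun x => φ x = z) :=
    card_eq_sum_card_image φ e
  rw [h1]
  have h2 : ∀ z ∈ e.image φ, 2 ≤ #(e.filter fun x => φ x = z) := by
    intro z hz
    obtain ⟨x, hx, hxz⟩ := mem_image.mp hz
    have h3 : 0 < #(e.filter fun x => φ x = z) := card_pos.mpr ⟨x, mem_filter.mpr ⟨hx, hxz⟩⟩
    have h4 : #(e.filter fun x => φ x = z) ≠ 1 := fun h5 => h ⟨z, h5⟩
    omega
  calc 2 * #(e.image φ) = ∑ _z ∈ e.image φ, 2 := by simp [mul_comm]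
    _ ≤ _ := sum_le_sum h2

/-- PIECE A5. `few` + `many`. -/
theorem bad_le {d : α} {C : Finset V → Finset (V → α)} (hC : Fam d C) {e S₀ : Finset V} {v : V}
    (hv : v ∉ S₀) (hve : v ∈ e) (hes : e ⊆ insert v S₀) {b κ : ℝ} (hb : 0 < b)
    (hg : Grow C e S₀ b) (hBB : BB #e b κ) (B : Finset ((V → α) × α))
    (hB : ∀ p ∈ B, p.1 ∈ C S₀ ∧ ¬ HasUniq e (Function.update p.1 v p.2)) :
    (#B : ℝ) ≤ κ * #(C S₀) := by
  classical
  obtain ⟨n0, hn, hcase⟩ := hBB
  have hfew : ∀ B' : Finset ((V → α) × α), (∀ p ∈ B', p.1 ∈ C S₀ ∧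
      ¬ HasUniq e (Function.update p.1 v p.2) ∧
      #(e.image (Function.update p.1 v p.2)) ≤ n0) →
      (#B' : ℝ) ≤ ((#e - 1).choose n0 : ℝ) * n0 ^ (#e - n0) / b ^ (#e - n0 - 1) * #(C S₀) := by
    intro B' hB'
    have h := few hC hv hve hes hb hg n0 hn B' hB'
    have hpos : 0 < b ^ (#e - n0 - 1) := pow_pos hb _
    rw [div_mul_eq_mul_div, le_div_iff₀ hpos]
    exact h
  have hN : (0 : ℝ) ≤ #(C S₀) := Nat.cast_nonneg _
  rcases hcase with ⟨h1, h2⟩ | ⟨h1, h2⟩
  · refine (hfew B ?_).trans (mul_le_mul_of_nonneg_right h2 hN)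
    intro p hp
    obtain ⟨h3, h4⟩ := hB p hp
    refine ⟨h3, h4, ?_⟩
    have := a5_image_le h4
    omega
  · set B1 := B.filter fun p => #(e.image (Function.update p.1 v p.2)) ≤ n0 with hB1
    set B2 := B.filter fun p => ¬ #(e.image (Function.update p.1 v p.2)) ≤ n0 with hB2
    have hsplit : #B1 + #B2 = #B := card_filter_add_card_filter_not _
    have h3 := hfew B1 (by
      intro p hp
      rw [hB1, mem_filter] at hp
      exact ⟨(hB p hp.1).1, (hB p hp.1).2, hp.2⟩)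
    have h4 := many hC hv hve hes hb hg n0 B2 (by
      intro p hp
      rw [hB2, mem_filter] at hp
      exact ⟨(hB p hp.1).1, (hB p hp.1).2, by omega⟩)
    have hch : (0 : ℝ) < (n0.choose 2 : ℝ) := by
      exact_mod_cast Nat.choose_pos h1
    have h5 : (#B2 : ℝ) ≤ #e * (1 + 2 / b) ^ (#e - 1) / (n0.choose 2 : ℝ) * #(C S₀) := by
      rw [div_mul_eq_mul_div, le_div_iff₀ hch]
      exact h4
    have h6 : (#B : ℝ) = #B1 + #B2 := by
      rw [← hsplit]
      push_cast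
      ring
    rw [h6]
    calc (#B1 : ℝ) + #B2 ≤ ((#e - 1).choose n0 : ℝ) * n0 ^ (#e - n0) / b ^ (#e - n0 - 1) * #(C S₀)
          + #e * (1 + 2 / b) ^ (#e - 1) / (n0.choose 2 : ℝ) * #(C S₀) := add_le_add h3 h5
      _ = (((#e - 1).choose n0 : ℝ) * n0 ^ (#e - n0) / b ^ (#e - n0 - 1)
          + #e * (1 + 2 / b) ^ (#e - 1) / (n0.choose 2 : ℝ)) * #(C S₀) := by ring
      _ ≤ κ * #(C S₀) := mul_le_mul_of_nonneg_right h2 hN

end Pool.Agent.Helper60.PCF
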