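import Pool.Agent.Helper60.PCF.Base
import Pool.Agent.Helper60.PCF.St.A5

set_option autoImplicit false
set_option linter.unusedSectionVars false

namespace Pool.Agent.Helper60.PCF

open Finset

variable {V α : Type} [Fintype V] [DecidableEq V] [DecidableEq α]

/-- the proper colourings of `S` satisfying the demands inside `S` -/
private noncomputable def b1C (G : SimpleGraph V) [DecidableRel G.Adj] (L : V → Finset α) (H : Finset V)
    (d : α) (S : Finset V) : Finset (V → α) :=
  @Finset.filter _ (fun φ : V → α =>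
    (∀ u ∈ S, ∀ v ∈ S, G.Adj u v → φ u ≠ φ v) ∧
      ∀ w, Dem G H w → nbH G H w ⊆ S → HasUniq (nbH G H w) φ) (Classical.decPred _)
    (Fintype.piFinset fun v => if v ∈ S then L v else {d})

private theorem b1_mem {G : SimpleGraph V} [DecidableRel G.Adj] {L : V → Finset α} {H : Finset V}
    {d : α} {S : Finset V} {φ : V → α} :
    φ ∈ b1C G L H d S ↔ (∀ v, v ∉ S → φ v = d) ∧ (∀ v ∈ S, φ v ∈ L v) ∧
      (∀ u ∈ S, ∀ v ∈ S, G.Adj u v → φ u ≠ φ v) ∧
      ∀ w, Dem G H w → nbH G H w ⊆ S → HasUniq (nbH G H w) φ := by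
  unfold b1C
  rw [@Finset.mem_filter _ _ (Classical.decPred _), Fintype.mem_piFinset]
  constructor
  · rintro ⟨h1, h2, h3⟩
    refine ⟨fun v hv => ?_, fun v hv => ?_, h2, h3⟩
    · have := h1 v
      rw [if_neg hv, mem_singleton] at this
      exact this
    · have := h1 v
      rw [if_pos hv] at this
      exact this
  · rintro ⟨h0, h1, h2, h3⟩
    refine ⟨fun v => ?_, h2, h3⟩
    by_cases hv : v ∈ S
    · rw [if_pos hv]
      exact h1 v hv
    · rw [if_neg hv, mem_singleton]
      exact h0 v hv

private theorem b1_fam (G : SimpleGraph V) [DecidableRel G.Adj] (L : V → Finset α) (H : Finset V)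
    (d : α) : Fam d (b1C G L H d) where
  out := fun S φ h => (b1_mem.mp h).1
  her := by
    intro S S' φ hS h
    obtain ⟨h0, h1, h2, h3⟩ := b1_mem.mp h
    refine b1_mem.mpr ⟨fun v hv => res_apply_not hv, fun v hv => ?_, ?_, ?_⟩
    · rw [res_apply_mem hv]
      exact h1 v (hS hv)
    · intro u hu v hv huv
      rw [res_apply_mem hu, res_apply_mem hv]
      exact h2 u (hS hu) v (hS hv) huv
    · intro w hw hwS
      have := h3 w hw (hwS.trans hS)
      refine (hasUniq_congr fun x hx => ?_).mpr this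
      exact res_apply_mem (hwS hx)

open scoped Classical in
/-- forbidden colours -/
private noncomputable def b1g (G : SimpleGraph V) [DecidableRel G.Adj] (H : Finset V) (v : V)
    (ψ : V → α) (w : V) : α :=
  if h : ((nbH G H w).erase v).Nonempty ∧ w ∉ H then ψ h.1.choose else ψ w

private theorem b1_good {G : SimpleGraph V} [DecidableRel G.Adj] {L : V → Finset α} {H : Finset V}
    {d : α} {S : Finset V} (hSH : S ⊆ H) {v : V} (hv : v ∈ S) {ψ : V → α} {c : α}
    (hψ : ψ ∈ b1C G L H d (S.erase v)) (hc : c ∈ L v)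
    (hF : ∀ w ∈ G.neighborFinset v, b1g G H v ψ w ≠ c)
    (hU : ∀ w ∈ G.neighborFinset v, 3 ≤ #(nbH G H w) → nbH G H w ⊆ S →
      HasUniq (nbH G H w) (Function.update ψ v c)) :
    Function.update ψ v c ∈ b1C G L H d S := by
  obtain ⟨h0, h1, h2, h3⟩ := b1_mem.mp hψ
  have hne : ∀ x, x ≠ v → Function.update ψ v c x = ψ x := fun x hx => Function.update_of_ne hx _ _
  have hveq : Function.update ψ v c v = c := Function.update_self _ _ _
  have hgS : ∀ u ∈ S, u ≠ v → G.Adj v u → ψ u ≠ c := by
    intro u hu huv hadj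
    have := hF u (by rw [SimpleGraph.mem_neighborFinset]; exact hadj)
    unfold b1g at this
    rw [dif_neg (fun h => h.2 (hSH hu))] at this
    exact this
  refine b1_mem.mpr ⟨fun x hx => ?_, fun x hx => ?_, ?_, ?_⟩
  · have hxv : x ≠ v := fun h => hx (h ▸ hv)
    rw [hne x hxv]
    exact h0 x (fun h => hx (mem_of_mem_erase h))
  · by_cases hxv : x = v
    · subst hxv
      rw [hveq]
      exact hc
    · rw [hne x hxv]
      exact h1 x (mem_erase.mpr ⟨hxv, hx⟩)
  · intro a ha b hb hab
    by_cases hav : a = v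
    · subst hav
      have hba : b ≠ a := hab.ne'
      rw [hveq, hne b hba]
      exact (hgS b hb hba hab).symm
    · by_cases hbv : b = v
      · subst hbv
        rw [hveq, hne a hav]
        exact hgS a ha hav hab.symm
      · rw [hne a hav, hne b hbv]
        exact h2 a (mem_erase.mpr ⟨hav, ha⟩) b (mem_erase.mpr ⟨hbv, hb⟩) hab
  · intro w hw hwS
    by_cases hvw : v ∈ nbH G H w
    · have hwN : w ∈ G.neighborFinset v := by
        have := (mem_filter.mp hvw).1
        rw [SimpleGraph.mem_neighborFinset] at this ⊢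
        exact this.symm
      rcases hw with hw | ⟨hwH, hw2⟩
      · exact hU w hwN hw hwS
      · have hcard : #((nbH G H w).erase v) = 1 := by
          rw [card_erase_of_mem hvw, hw2]
        have hnon : ((nbH G H w).erase v).Nonempty := card_pos.mp (by omega)
        have hg := hF w hwN
        unfold b1g at hg
        rw [dif_pos ⟨hnon, hwH⟩] at hg
        generalize hp : (⟨hnon, hwH⟩ : ((nbH G H w).erase v).Nonempty ∧ w ∉ H).1.choose = p at hg
        have hpm : p ∈ (nbH G H w).erase v := hp ▸ hnon.choose_spec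
        have hall : ∀ x ∈ (nbH G H w).erase v, x = p := by
          intro x hx
          exact card_le_one.mp hcard.le x hx p hpm
        refine ⟨c, ?_⟩
        have : (nbH G H w).filter (fun x => Function.update ψ v c x = c) = {v} := by
          ext x
          rw [mem_filter, mem_singleton]
          constructor
          · rintro ⟨hx, hxc⟩
            by_contra hxv
            have hxp := hall x (mem_erase.mpr ⟨hxv, hx⟩)
            rw [hne x hxv, hxp] at hxc
            exact hg hxc
          · rintro rfl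
            exact ⟨hvw, hveq⟩
        rw [this, card_singleton]
    · have hsub : nbH G H w ⊆ S.erase v := by
        intro x hx
        refine mem_erase.mpr ⟨fun h => hvw (h ▸ hx), hwS hx⟩
      refine (hasUniq_congr fun x hx => ?_).mpr (h3 w hw hsub)
      exact hne x (fun h => hvw (h ▸ hx))

private theorem b1_claim (G : SimpleGraph V) [DecidableRel G.Adj] (L : V → Finset α) (H : Finset V)
    (β κ : V → ℝ) (d : α) (hκ : ∀ w, 0 ≤ κ w)
    (hcount : ∀ v ∈ H, (G.degree v : ℝ) + β v + ∑ w ∈ G.neighborFinset v, κ w ≤ #(L v))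
    (hBB : ∀ w, 3 ≤ #(nbH G H w) → ∃ b : ℝ, 0 < b ∧ (∀ x ∈ nbH G H w, b ≤ β x) ∧
      BB #(nbH G H w) b (κ w)) (n : ℕ) :
    ∀ S : Finset V, #S = n → S ⊆ H → ∀ v ∈ S,
      β v * #(b1C G L H d (S.erase v)) ≤ #(b1C G L H d S) := by
  classical
  induction n using Nat.strong_induction_on with
  | _ n ih =>
  intro S hSn hSH v hv
  set S₀ := S.erase v with hS₀
  have hvS₀ : v ∉ S₀ := notMem_erase v S
  have hlt : #S₀ < n := by
    rw [hS₀, card_erase_of_mem hv, ← hSn]
    have : 0 < #S := card_pos.mpr ⟨v, hv⟩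
    omega
  have hgrow : ∀ T, T ⊆ S₀ → ∀ x ∈ T,
      β x * #(b1C G L H d (T.erase x)) ≤ #(b1C G L H d T) := by
    intro T hT x hx
    exact ih #T ((card_le_card hT).trans_lt hlt) T rfl
      ((hT.trans (erase_subset _ _)).trans hSH) x hx
  set Q := b1C G L H d S₀ with hQ
  set P := Q ×ˢ L v with hP
  let f : (V → α) × α → (V → α) := fun p => Function.update p.1 v p.2
  let Good := P.filter fun p => f p ∈ b1C G L H d S
  let BadA := P.filter fun p => p.2 ∈ (G.neighborFinset v).image (b1g G H v p.1)
  let BadB : V → Finset ((V → α) × α) := fun w => P.filter fun p =>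
    3 ≤ #(nbH G H w) ∧ nbH G H w ⊆ S ∧ ¬ HasUniq (nbH G H w) (f p)
  have hcover : P ⊆ Good ∪ (BadA ∪ (G.neighborFinset v).biUnion BadB) := by
    intro p hp
    by_contra hcon
    rw [mem_union, mem_union, not_or, not_or] at hcon
    obtain ⟨hn1, hn2, hn3⟩ := hcon
    apply hn1
    refine mem_filter.mpr ⟨hp, ?_⟩
    obtain ⟨hp1, hp2⟩ := mem_product.mp hp
    refine b1_good hSH hv hp1 hp2 ?_ ?_
    · intro w hw hwc
      apply hn2
      exact mem_filter.mpr ⟨hp, mem_image.mpr ⟨w, hw, hwc⟩⟩
    · intro w hw h3 hwS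
      by_contra hnu
      apply hn3
      exact mem_biUnion.mpr ⟨w, hw, mem_filter.mpr ⟨hp, h3, hwS, hnu⟩⟩
  have hGood : #Good ≤ #(b1C G L H d S) := by
    refine card_le_card_of_injOn f ?_ ?_
    · intro p hp
      exact (mem_filter.mp hp).2
    · intro p hp q hq hpq
      have hp1 := (mem_product.mp (mem_filter.mp hp).1).1
      have hq1 := (mem_product.mp (mem_filter.mp hq).1).1
      have hpd : p.1 v = d := (b1_mem.mp hp1).1 v hvS₀
      have hqd : q.1 v = d := (b1_mem.mp hq1).1 v hvS₀
      have hpq' : Function.update p.1 v p.2 = Function.update q.1 v q.2 := hpq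
      refine Prod.ext ?_ ?_
      · funext x
        by_cases hx : x = v
        · rw [hx, hpd, hqd]
        · have := congrFun hpq' x
          rwa [Function.update_of_ne hx, Function.update_of_ne hx] at this
      · have := congrFun hpq' v
        rwa [Function.update_self, Function.update_self] at this
  have hBadA : #BadA ≤ #Q * G.degree v := by
    have h1 : BadA ⊆ Q.biUnion fun ψ =>
        ((G.neighborFinset v).image (b1g G H v ψ)).image fun c => (ψ, c) := by
      intro p hp
      obtain ⟨hp1, hp2⟩ := mem_filter.mp hp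
      refine mem_biUnion.mpr ⟨p.1, (mem_product.mp hp1).1, mem_image.mpr ⟨p.2, hp2, rfl⟩⟩
    refine (card_le_card h1).trans ?_
    refine card_biUnion_le_card_mul _ _ _ ?_
    intro ψ _
    refine card_image_le.trans (card_image_le.trans ?_)
    rw [SimpleGraph.card_neighborFinset_eq_degree]
  have hBadB : ∀ w ∈ G.neighborFinset v, (#(BadB w) : ℝ) ≤ κ w * #Q := by
    intro w hw
    by_cases h : 3 ≤ #(nbH G H w) ∧ nbH G H w ⊆ S
    · obtain ⟨h3, hwS⟩ := h
      obtain ⟨b, hb, hbx, hBBw⟩ := hBB w h3
      have hve : v ∈ nbH G H w := by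
        refine mem_filter.mpr ⟨?_, hSH hv⟩
        rw [SimpleGraph.mem_neighborFinset] at hw ⊢
        exact hw.symm
      refine bad_le (b1_fam G L H d) hvS₀ hve ?_ hb ?_ hBBw (BadB w) ?_
      · rw [hS₀, insert_erase hv]
        exact hwS
      · intro T hT x hx hxe
        refine le_trans ?_ (hgrow T hT x hx)
        exact mul_le_mul_of_nonneg_right (hbx x hxe) (Nat.cast_nonneg _)
      · intro p hp
        obtain ⟨hp1, _, _, hp2⟩ := mem_filter.mp hp
        exact ⟨(mem_product.mp hp1).1, hp2⟩
    · have : BadB w = ∅ := by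
        refine filter_eq_empty_iff.mpr ?_
        intro p _ hp
        exact h ⟨hp.1, hp.2.1⟩
      rw [this, card_empty, Nat.cast_zero]
      exact mul_nonneg (hκ w) (Nat.cast_nonneg _)
  have htot : (#P : ℝ) ≤ #(b1C G L H d S) + (#Q * G.degree v +
      ∑ w ∈ G.neighborFinset v, κ w * #Q) := by
    have h1 : #P ≤ #Good + (#BadA + ∑ w ∈ G.neighborFinset v, #(BadB w)) := by
      refine (card_le_card hcover).trans ((card_union_le _ _).trans ?_)
      refine Nat.add_le_add_left ((card_union_le _ _).trans ?_) _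
      exact Nat.add_le_add_left card_biUnion_le _
    have h2 : (#P : ℝ) ≤ #Good + (#BadA + ∑ w ∈ G.neighborFinset v, (#(BadB w) : ℝ)) := by
      exact_mod_cast h1
    have h3 : (#Good : ℝ) ≤ #(b1C G L H d S) := by exact_mod_cast hGood
    have h4 : (#BadA : ℝ) ≤ #Q * G.degree v := by exact_mod_cast hBadA
    have h5 := sum_le_sum hBadB
    linarith
  have hPc : (#P : ℝ) = #Q * #(L v) := by
    rw [hP, card_product]
    push_cast
    rfl
  have hc := hcount v (hSH hv)
  have hQ0 : (0 : ℝ) ≤ #Q := Nat.cast_nonneg _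
  rw [hPc, ← sum_mul] at htot
  have h6 := mul_le_mul_of_nonneg_left hc hQ0
  nlinarith [h6, htot]

/-- PIECE B1 (stage H). PROOF. If `H = ∅` then `Dem` never holds (`nbH` is empty) and any `φ` works (`α` is nonempty: if `V` is empty
everything is trivial; otherwise use: `α` empty and `V` nonempty and `H = ∅` - then there is no `φ : V → α`; this is excluded by `hne`).
Fix a default colour `d` (`hne`). For `S : Finset V` let `C S` = all `φ : V → α` with `φ v = d` for `v ∉ S`, `φ v ∈ L v` for `v ∈ S`,
proper on `S` (`∀ u ∈ S, ∀ v ∈ S, G.Adj u v → φ u ≠ φ v`) and `HasUniq (nbH G H w) φ` for all `w` with `Dem G H w` and `nbH G H w ⊆ S`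
(as a filter of `Fintype.piFinset fun v => if v ∈ S then L v else {d}`). It is a `Fam` (restriction: `hasUniq_congr`).
CLAIM (strong induction on `#S`): for `S ⊆ H`, `v ∈ S`: `β v * #(C (S.erase v)) ≤ #(C S)`. By induction the claim holds for all subsets of
`S.erase v`, so `Grow C e (S.erase v) b` for every `e ⊆ H` (all `e`) and `b` with `b ≤ β x` for all `x ∈ e`. Let `P = C (S.erase v) ×ˢ L v`. The map
`(ψ, c) ↦ Function.update ψ v c` is injective on `P` (`ψ v = d`), and its value is in `C S` unless
(a) `c` is in the set `F ψ` of colours `ψ u`, `u ∈ N(v) ∩ S`, and `ψ (partner)`, for `w ∈ N(v)`, `w ∉ H`, `nbH G H w = {v, partner}`: for each `w ∈ N(v)` at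
most one of the two possibilities occurs (`w ∈ S ⊆ H` or `w ∉ H`), so `#(F ψ) ≤ deg v` (it is contained in the image of `N(v)` under one function); or
(b) for some `w ∈ N(v)` with `3 ≤ #(nbH G H w)`, `nbH G H w ⊆ S`, `¬ HasUniq (nbH G H w) (update ψ v c)`: the number of such pairs is
`≤ κ w * #(C (S.erase v))` by `bad_le` (with `b` from `hBB`). (If `v ∉ nbH G H w` the condition at `w` is inherited from `ψ`; if `#(nbH G H w) = 2` and
`w ∉ H` it says that the two colours differ: case (a).) So `#(C S) ≥ #(C (S.erase v)) * (#(L v) - deg v - ∑ w ∈ N(v), κ w) ≥ β v * #(C (S.erase v))`.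
FINISH: `#(C ∅) = 1` (the constant map), so by induction over the elements of `H` (all `β v > 0`) `0 < #(C H)`; take `φ ∈ C H`. -/
theorem stageH (G : SimpleGraph V) [DecidableRel G.Adj] (L : V → Finset α) (H : Finset V)
    (β κ : V → ℝ) (hne : Nonempty α) (hβ : ∀ v ∈ H, 0 < β v) (hκ : ∀ w, 0 ≤ κ w)
    (hcount : ∀ v ∈ H, (G.degree v : ℝ) + β v + ∑ w ∈ G.neighborFinset v, κ w ≤ #(L v))
    (hBB : ∀ w, 3 ≤ #(nbH G H w) → ∃ b : ℝ, 0 < b ∧ (∀ x ∈ nbH G H w, b ≤ β x) ∧
      BB #(nbH G H w) b (κ w)) :
    ∃ φ : V → α, (∀ v ∈ H, φ v ∈ L v) ∧ (∀ u ∈ H, ∀ v ∈ H, G.Adj u v → φ u ≠ φ v) ∧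
      ∀ w, Dem G H w → HasUniq (nbH G H w) φ := by
  classical
  obtain ⟨d⟩ := hne
  have key : ∀ S : Finset V, S ⊆ H → 0 < #(b1C G L H d S) := by
    intro S
    induction S using Finset.induction_on with
    | empty =>
      intro _
      refine card_pos.mpr ⟨fun _ => d, b1_mem.mpr ⟨fun _ _ => rfl, ?_, ?_, ?_⟩⟩
      · intro v hv
        exact absurd hv (notMem_empty v)
      · intro u hu
        exact absurd hu (notMem_empty u)
      · intro w hw hwS
        have h0 : nbH G H w = ∅ := subset_empty.mp hwS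
        unfold Dem at hw
        rw [h0, card_empty] at hw
        omega
    | insert v S hv ih =>
      intro hS
      have h1 := ih ((subset_insert v S).trans hS)
      have h2 := b1_claim G L H β κ d hκ hcount hBB _ (insert v S) rfl hS v (mem_insert_self v S)
      rw [erase_insert hv] at h2
      have h3 : (0 : ℝ) < β v * #(b1C G L H d S) :=
        mul_pos (hβ v (hS (mem_insert_self v S))) (by exact_mod_cast h1)
      have h4 := h3.trans_le h2
      exact_mod_cast h4
  obtain ⟨φ, hφ⟩ := card_pos.mp (key H (Subset.refl H))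
  obtain ⟨_, h1, h2, h3⟩ := b1_mem.mp hφ
  exact ⟨φ, h1, h2, fun w hw => h3 w hw (fun x hx => (mem_filter.mp hx).2)⟩

end Pool.Agent.Helper60.PCF
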