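import Pool.Agent.Helper60.PCF.Base

set_option autoImplicit false
set_option linter.unusedSectionVars false

namespace Pool.Agent.Helper60.PCF

open Finset

variable {V α : Type} [Fintype V] [DecidableEq V] [DecidableEq α]

/-- the invariant of the greedy completion -/
private def B2_Inv (G : SimpleGraph V) [DecidableRel G.Adj] (L : V → Finset α) (H S : Finset V)
    (φ : V → α) : Prop :=
  (∀ v ∈ S, φ v ∈ L v) ∧ (∀ u ∈ S, ∀ v ∈ S, G.Adj u v → φ u ≠ φ v) ∧
    ∀ w, (nbH G S w).Nonempty → HasUniq (nbH G S w) φ ∨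
      (w ∈ H ∧ nbH G S w = nbH G H w ∧ #(nbH G H w) = 2)

private theorem B2_two {e : Finset V} {φ : V → α} (h2 : #e = 2) (hn : ¬ HasUniq e φ) :
    ∀ x ∈ e, ∀ y ∈ e, φ x = φ y := by
  obtain ⟨a, b, hab, rfl⟩ := card_eq_two.mp h2
  have key : φ a = φ b := by
    by_contra hne
    apply hn
    refine ⟨φ a, ?_⟩
    rw [card_eq_one]
    refine ⟨a, ?_⟩
    ext x
    simp only [mem_filter, mem_insert, mem_singleton]
    constructor
    · rintro ⟨h | h, h'⟩
      · exact h
      · rw [h] at h'
        exact absurd h'.symm hne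
    · intro h
      exact ⟨Or.inl h, by rw [h]⟩
  intro x hx y hy
  rw [mem_insert, mem_singleton] at hx hy
  rcases hx with hx | hx <;> rcases hy with hy | hy <;> rw [hx, hy]
  · exact key
  · exact key.symm

private theorem B2_nb_insert_adj (G : SimpleGraph V) [DecidableRel G.Adj] (S : Finset V) (u w : V)
    (h : G.Adj w u) : nbH G (insert u S) w = insert u (nbH G S w) := by
  ext x
  simp only [nbH, mem_filter, mem_insert, SimpleGraph.mem_neighborFinset]
  constructor
  · rintro ⟨h1, h2 | h2⟩
    · exact Or.inl h2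
    · exact Or.inr ⟨h1, h2⟩
  · rintro (h1 | ⟨h1, h2⟩)
    · subst h1
      exact ⟨h, Or.inl rfl⟩
    · exact ⟨h1, Or.inr h2⟩

private theorem B2_nb_insert_not (G : SimpleGraph V) [DecidableRel G.Adj] (S : Finset V) (u w : V)
    (h : ¬ G.Adj w u) : nbH G (insert u S) w = nbH G S w := by
  ext x
  simp only [nbH, mem_filter, mem_insert, SimpleGraph.mem_neighborFinset]
  constructor
  · rintro ⟨h1, h2 | h2⟩
    · subst h2
      exact absurd h1 h
    · exact ⟨h1, h2⟩
  · rintro ⟨h1, h2⟩
    exact ⟨h1, Or.inr h2⟩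

private theorem B2_step (G : SimpleGraph V) [DecidableRel G.Adj] (L : V → Finset α)
    (H S : Finset V) (φ : V → α) (u : V) (hu : u ∉ S)
    (hlow : 2 * G.degree u + 1 ≤ #(L u)) (hI : B2_Inv G L H S φ) :
    ∃ φ' : V → α, B2_Inv G L H (insert u S) φ' := by
  classical
  obtain ⟨h1, h2, h3⟩ := hI
  have hz : ∀ w, ∃ z : α, (HasUniq (nbH G S w) φ → #((nbH G S w).filter fun x => φ x = z) = 1) ∧
      (¬ HasUniq (nbH G S w) φ → (nbH G S w).Nonempty → ∃ x ∈ nbH G S w, φ x = z) := by
    intro w
    by_cases hw : HasUniq (nbH G S w) φ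
    · obtain ⟨z, hz⟩ := hw
      exact ⟨z, fun _ => hz, fun h => absurd ⟨z, hz⟩ h⟩
    · by_cases hne : (nbH G S w).Nonempty
      · obtain ⟨x, hx⟩ := hne
        exact ⟨φ x, fun h => absurd h hw, fun _ _ => ⟨x, hx, rfl⟩⟩
      · exact ⟨φ u, fun h => absurd h hw, fun _ h => absurd h hne⟩
  choose z hz1 hz2 using hz
  have hcard : #((G.neighborFinset u).image φ ∪ (G.neighborFinset u).image z) < #(L u) := by
    have c1 := card_union_le ((G.neighborFinset u).image φ) ((G.neighborFinset u).image z)
    have c2 : #((G.neighborFinset u).image φ) ≤ G.degree u := by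
      rw [← G.card_neighborFinset_eq_degree]
      exact card_image_le
    have c3 : #((G.neighborFinset u).image z) ≤ G.degree u := by
      rw [← G.card_neighborFinset_eq_degree]
      exact card_image_le
    omega
  obtain ⟨c, hcL, hcF⟩ := exists_mem_notMem_of_card_lt_card hcard
  rw [mem_union, not_or] at hcF
  obtain ⟨hcF1, hcF2⟩ := hcF
  have hc1 : ∀ x, G.Adj u x → c ≠ φ x := by
    intro x hx he
    exact hcF1 (mem_image.mpr ⟨x, (G.mem_neighborFinset u x).mpr hx, he.symm⟩)
  have hc2 : ∀ w, G.Adj u w → c ≠ z w := by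
    intro x hx he
    exact hcF2 (mem_image.mpr ⟨x, (G.mem_neighborFinset u x).mpr hx, he.symm⟩)
  have hφ : ∀ x ∈ S, Function.update φ u c x = φ x := by
    intro x hx
    have : x ≠ u := fun h => hu (h ▸ hx)
    exact Function.update_of_ne this _ _
  have hφu : Function.update φ u c u = c := Function.update_self _ _ _
  have hnbS : ∀ w, ∀ x ∈ nbH G S w, x ∈ S := by
    intro w x hx
    exact (mem_filter.mp hx).2
  refine ⟨Function.update φ u c, ?_, ?_, ?_⟩
  · intro v hv
    rcases mem_insert.mp hv with h | h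
    · rw [h, hφu]
      exact hcL
    · rw [hφ v h]
      exact h1 v h
  · intro a ha b hb hab
    rcases mem_insert.mp ha with h | h <;> rcases mem_insert.mp hb with h' | h'
    · rw [h, h'] at hab
      exact absurd hab (G.loopless.irrefl u)
    · rw [h, hφu, hφ b h']
      rw [h] at hab
      exact hc1 b hab
    · rw [h', hφu, hφ a h]
      rw [h'] at hab
      exact (hc1 a hab.symm).symm
    · rw [hφ a h, hφ b h']
      exact h2 a h b h' hab
  · intro w hw
    by_cases hadj : G.Adj w u
    · left
      rw [B2_nb_insert_adj G S u w hadj]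
      have hun : u ∉ nbH G S w := fun h => hu (hnbS w u h)
      by_cases hU : HasUniq (nbH G S w) φ
      · refine ⟨z w, ?_⟩
        rw [← hz1 w hU]
        congr 1
        ext x
        simp only [mem_filter, mem_insert]
        constructor
        · rintro ⟨h | h, h'⟩
          · rw [h, hφu] at h'
            exact absurd h' (hc2 w hadj.symm)
          · rw [hφ x (hnbS w x h)] at h'
            exact ⟨h, h'⟩
        · rintro ⟨h, h'⟩
          refine ⟨Or.inr h, ?_⟩
          rw [hφ x (hnbS w x h)]
          exact h'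
      · refine ⟨c, ?_⟩
        rw [card_eq_one]
        refine ⟨u, ?_⟩
        ext x
        simp only [mem_filter, mem_insert, mem_singleton]
        constructor
        · rintro ⟨h | h, h'⟩
          · exact h
          · exfalso
            have hne : (nbH G S w).Nonempty := ⟨x, h⟩
            obtain ⟨y, hy, hyz⟩ := hz2 w hU hne
            rcases h3 w hne with h4 | ⟨_, h4, h5⟩
            · exact hU h4
            · rw [← h4] at h5
              have h6 := B2_two h5 hU x h y hy
              rw [hφ x (hnbS w x h), h6, hyz] at h'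
              exact hc2 w hadj.symm h'.symm
        · intro h
          exact ⟨Or.inl h, by rw [h, hφu]⟩
    · rw [B2_nb_insert_not G S u w hadj] at hw ⊢
      rcases h3 w hw with h4 | h4
      · left
        exact (hasUniq_congr (fun x hx => hφ x (hnbS w x hx))).mpr h4
      · right
        exact h4

private theorem B2_all (G : SimpleGraph V) [DecidableRel G.Adj] (L : V → Finset α)
    (H : Finset V) (hlow : ∀ v, v ∉ H → 2 * G.degree v + 1 ≤ #(L v))
    (h0 : ∃ φ, B2_Inv G L H H φ) (T : Finset V) : ∃ φ, B2_Inv G L H (H ∪ T) φ := by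
  induction T using Finset.induction_on with
  | empty => simpa using h0
  | insert u T hu ih =>
    by_cases h : u ∈ H ∪ T
    · have h' : H ∪ insert u T = H ∪ T := by
        ext x
        simp only [mem_union, mem_insert]
        constructor
        · rintro (h1 | h1 | h1)
          · exact Or.inl h1
          · rw [h1]
            exact mem_union.mp h
          · exact Or.inr h1
        · rintro (h1 | h1)
          · exact Or.inl h1
          · exact Or.inr (Or.inr h1)
      rw [h']
      exact ih
    · obtain ⟨φ, hφ⟩ := ih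
      have h' : H ∪ insert u T = insert u (H ∪ T) := by
        ext x
        simp only [mem_union, mem_insert]
        tauto
      rw [h']
      exact B2_step G L H (H ∪ T) φ u h
        (hlow u (fun hH => h (mem_union.mpr (Or.inl hH)))) hφ

/-- PIECE B2 (stage L, greedy completion). PROOF. Colour the vertices outside `H` one after the other (induction on `#(univ \ S)`, or over the
finset `Hᶜ` with `Finset.induction_on`). Invariant for the set `S ⊇ H` of coloured vertices and `φ`, with `N_S(w) = N(w) ∩ S = nbH G S w`: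
`φ v ∈ L v` for `v ∈ S`, proper on `S`, and for every `w` with `nbH G S w` nonempty: `HasUniq (nbH G S w) φ`, or
(`w ∈ H` and `nbH G S w = nbH G H w` and `#(nbH G H w) = 2`). START `S = H`: if `#(nbH G H w) ≥ 3`, or `= 2` and `w ∉ H`: `hU`; if `= 2` and `w ∈ H`: second
alternative; if `= 1`: unique trivially. STEP: `u ∉ S`; forbid for `u` the colours of its coloured neighbours (`≤ deg u`) and for every `w ∈ N(u)` one
colour: if `HasUniq (nbH G S w) φ` a colour `z_w` occurring exactly once on it; otherwise, if `nbH G S w = {a, b}` (second alternative), the colour `φ a`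
(`= φ b`, because it has no unique colour). At most `2 deg u < #(L u)` colours are forbidden, so choose `c ∈ L u` not forbidden, `φ' = Function.update φ u c`.
For `w ∈ N(u)`: `nbH G (insert u S) w = insert u (nbH G S w)`: `z_w` still occurs exactly once; or `nbH G S w` was empty and `c` occurs exactly once; or
`{a, b, u}` with `c ≠ φ a = φ b`: `c` occurs exactly once. For `w ∉ N(u)` nothing changes. END `S = univ`: `nbH G univ w = N(w)`; the second alternative
is impossible, as `w ∈ H` has degree `≥ 3` (`hdeg`). -/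
theorem stageL (G : SimpleGraph V) [DecidableRel G.Adj] (L : V → Finset α) (H : Finset V)
    (φ₀ : V → α) (hL : ∀ v ∈ H, φ₀ v ∈ L v) (hP : ∀ u ∈ H, ∀ v ∈ H, G.Adj u v → φ₀ u ≠ φ₀ v)
    (hU : ∀ w, Dem G H w → HasUniq (nbH G H w) φ₀)
    (hlow : ∀ v, v ∉ H → 2 * G.degree v + 1 ≤ #(L v)) (hdeg : ∀ w ∈ H, 3 ≤ G.degree w) :
    ∃ φ : V → α, (∀ v, φ v ∈ L v) ∧ (∀ u v, G.Adj u v → φ u ≠ φ v) ∧
      ∀ w, (∃ u, G.Adj w u) → HasUniq (G.neighborFinset w) φ := by
  have h0 : B2_Inv G L H H φ₀ := by
    refine ⟨hL, hP, ?_⟩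
    intro w hw
    by_cases hD : Dem G H w
    · exact Or.inl (hU w hD)
    · have hpos : 0 < #(nbH G H w) := card_pos.mpr hw
      unfold Dem at hD
      rw [not_or] at hD
      obtain ⟨hD1, hD2⟩ := hD
      by_cases h2 : #(nbH G H w) = 2
      · right
        refine ⟨?_, rfl, h2⟩
        by_contra hwH
        exact hD2 ⟨hwH, h2⟩
      · have h1 : #(nbH G H w) = 1 := by omega
        left
        obtain ⟨a, ha⟩ := card_eq_one.mp h1
        refine ⟨φ₀ a, ?_⟩
        rw [ha, filter_singleton]
        simp
  obtain ⟨φ, hφ1, hφ2, hφ3⟩ := B2_all G L H hlow ⟨φ₀, h0⟩ Finset.univ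
  have hHu : H ∪ Finset.univ = Finset.univ := by
    ext x
    simp
  rw [hHu] at hφ1 hφ2 hφ3
  have hnb : ∀ w, nbH G Finset.univ w = G.neighborFinset w := by
    intro w
    ext x
    simp [nbH]
  refine ⟨φ, fun v => hφ1 v (mem_univ v), fun u v => hφ2 u (mem_univ u) v (mem_univ v), ?_⟩
  rintro w ⟨u, hu⟩
  have hne : (nbH G Finset.univ w).Nonempty := by
    rw [hnb w]
    exact ⟨u, (G.mem_neighborFinset w u).mpr hu⟩
  rcases hφ3 w hne with h | ⟨hwH, h4, h5⟩
  · rw [hnb w] at h
    exact h
  · exfalso
    rw [← h4, hnb w, G.card_neighborFinset_eq_degree] at h5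
    have := hdeg w hwH
    omega

end Pool.Agent.Helper60.PCF
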