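import Pool.Agent.Helper60.PCF.Base

set_option autoImplicit false
set_option linter.unusedSectionVars false

namespace Pool.Agent.Helper60.PCF

open Finset

private theorem n1_sq8 (m : ℕ) (hm : 3 ≤ m) : 8 * m ^ 2 ≤ 9 * 2 ^ m := by
  induction m, hm using Nat.le_induction with
  | base => norm_num
  | succ m hm ih =>
    rw [pow_succ 2 m]
    nlinarith

private theorem n1_sq4 (m : ℕ) (hm : 8 ≤ m) : 4 * m ^ 2 ≤ 2 ^ m := by
  induction m, hm using Nat.le_induction with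
  | base => norm_num
  | succ m hm ih =>
    rw [pow_succ 2 m]
    nlinarith

private theorem n1_choose (m n0 : ℕ) (hm : 1 ≤ m) :
    ((m - 1).choose n0 : ℝ) ≤ 2 ^ m / 2 := by
  have h1 : (m - 1).choose n0 ≤ 2 ^ (m - 1) := Nat.choose_le_two_pow _ _
  have h2 : ((m - 1).choose n0 : ℝ) ≤ (2 : ℝ) ^ (m - 1) := by exact_mod_cast h1
  have h3 : (2 : ℝ) ^ m = 2 ^ (m - 1) * 2 := by
    rw [← pow_succ]
    congr 1
    omega
  rw [h3]
  linarith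

private theorem n1_pow16 (m j : ℕ) (h : m ≤ 2 * j) : ((1 : ℝ) / 16) ^ j ≤ 1 / 4 ^ m := by
  have h1 : ((1 : ℝ) / 16) ^ j = 1 / 4 ^ (2 * j) := by
    rw [one_div, one_div, inv_pow, pow_mul]
    norm_num
  rw [h1]
  apply one_div_le_one_div_of_le (by positivity)
  exact pow_le_pow_right₀ (by norm_num) h

/-- PIECE N1 (small sets). PROOF. First alternative of `BB` with `n0 = m / 2`; put `h = m - n0 = (m+1)/2 ≥ 2`. Then
`choose (m-1) n0 ≤ 2 ^ (m-1)` (`Nat.choose_le_two_pow` or sum), `n0 ^ h ≤ (m/2) ^ h`, so the expression is at most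
`2 ^ (m-1) * (m/2) * (m/(2b)) ^ (h-1)`. As `8m ≤ b`, `m/(2b) ≤ 1/16`, so `(m/(2b)) ^ (h-1) ≤ (m/(2b)) * (1/16) ^ (h-2)` and
`16 ^ h ≥ 4 ^ m`; total `≤ 2^(m-1) * (m/2) * (m/(2b)) * 256 / 4^m = 32 m² / (2^m b) ≤ 36 / b ≤ 100 / b ≤ κ` (`m² ≤ (9/8) 2^m` for `m ≥ 3`). -/
theorem bb_small (m : ℕ) (hm : 3 ≤ m) (b κ : ℝ) (hb : 8 * (m : ℝ) ≤ b) (hκ : 100 / b ≤ κ) :
    BB m b κ := by
  have hm3 : (3 : ℝ) ≤ m := by exact_mod_cast hm
  have hb0 : 0 < b := by linarith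
  obtain ⟨n0, hn0⟩ : ∃ n0, n0 = m / 2 := ⟨_, rfl⟩
  obtain ⟨h2, hh2⟩ : ∃ h2, h2 + 2 = m - n0 := ⟨m - n0 - 2, by omega⟩
  refine ⟨n0, by omega, Or.inl ⟨by omega, ?_⟩⟩
  have e1 : m - n0 = h2 + 2 := hh2.symm
  have e2 : m - n0 - 1 = h2 + 1 := by omega
  rw [e1, show h2 + 2 - 1 = h2 + 1 from rfl]
  have hn0r : (n0 : ℝ) ≤ m / 2 := by
    have : 2 * n0 ≤ m := by omega
    have h : (2 : ℝ) * n0 ≤ m := by exact_mod_cast this
    linarith
  have hn00 : (0 : ℝ) ≤ n0 := Nat.cast_nonneg _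
  have hr0 : 0 ≤ (n0 : ℝ) / b := by positivity
  have hr1 : (n0 : ℝ) / b ≤ m / (2 * b) := by
    rw [div_le_div_iff₀ hb0 (by positivity)]
    nlinarith
  have hr2 : (n0 : ℝ) / b ≤ 1 / 16 := by
    rw [div_le_div_iff₀ hb0 (by norm_num)]
    linarith
  have e3 : (n0 : ℝ) ^ (h2 + 2) / b ^ (h2 + 1) = n0 * ((n0 / b) * (n0 / b) ^ h2) := by
    rw [← pow_succ', div_pow]
    rw [pow_succ' (n0 : ℝ) (h2 + 1)]
    ring
  have hp : ((n0 : ℝ) / b) ^ h2 ≤ 256 * (1 / 4 ^ m) := by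
    have h1 : ((n0 : ℝ) / b) ^ h2 ≤ (1 / 16) ^ h2 := pow_le_pow_left₀ hr0 hr2 _
    have h3 := n1_pow16 m (h2 + 2) (by omega)
    rw [pow_add] at h3
    have h4 : (1 / 16 : ℝ) ^ h2 = 256 * ((1 / 16) ^ h2 * (1 / 16) ^ 2) := by ring
    rw [h4] at h1
    linarith
  have hC := n1_choose m n0 (by omega)
  have hC0 : (0 : ℝ) ≤ ((m - 1).choose n0 : ℝ) := Nat.cast_nonneg _
  rw [mul_div_assoc, e3]
  have h5 : (n0 : ℝ) * ((n0 / b) * (n0 / b) ^ h2) ≤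
      (m / 2) * ((m / (2 * b)) * (256 * (1 / 4 ^ m))) := by
    apply mul_le_mul hn0r _ (by positivity) (by positivity)
    exact mul_le_mul hr1 hp (by positivity) (by positivity)
  have h6 : ((m - 1).choose n0 : ℝ) * (n0 * ((n0 / b) * (n0 / b) ^ h2)) ≤
      (2 ^ m / 2) * ((m / 2) * ((m / (2 * b)) * (256 * (1 / 4 ^ m)))) :=
    mul_le_mul hC h5 (by positivity) (by positivity)
  have h7 : (2 ^ m / 2) * (((m : ℝ) / 2) * ((m / (2 * b)) * (256 * (1 / 4 ^ m)))) =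
      (4 * (8 * (m : ℝ) ^ 2) / 2 ^ m) / b := by
    have h8 : (4 : ℝ) ^ m = 2 ^ m * 2 ^ m := by
      rw [← mul_pow]
      norm_num
    rw [h8]
    field_simp
    ring
  have h9 : (8 * (m : ℝ) ^ 2) ≤ 9 * 2 ^ m := by exact_mod_cast n1_sq8 m hm
  have h10 : (4 * (8 * (m : ℝ) ^ 2) / 2 ^ m) ≤ 36 := by
    rw [div_le_iff₀ (by positivity)]
    linarith
  have h11 : (4 * (8 * (m : ℝ) ^ 2) / 2 ^ m) / b ≤ 100 / b := by
    apply div_le_div_of_nonneg_right _ hb0.le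
    linarith
  linarith [h6, h7 ▸ h11]

/-- PIECE N2 (large sets). PROOF. Second alternative of `BB` with `n0 = ⌊b/16⌋₊ ≥ 4`. `n0 ≤ b/16 ≤ m/2`, so
`m - n0 - 1 ≥ m/2 - 1`. First term: `choose (m-1) n0 ≤ 2^(m-1)`, `n0^(m-n0)/b^(m-n0-1) = n0 (n0/b)^(m-n0-1) ≤ n0 (1/16)^(m-n0-1)`
and `16^(m-n0-1) ≥ 4^(m-2) = 4^m/16` (as `2(m-n0-1) ≥ m-2`); so it is `≤ 2^(m-1) n0 16/4^m ≤ (b/2) 2^(-m) ≤ (b/2) 2^(-b/8) ≤ 8/b`
(as `b² 2^(-b/8) ≤ 16` for `b ≥ 64`; in the form `m ≥ b/8`: `b ≤ 8m`, and `64 m² ≤ 16 * 2^m` for `m ≥ 8`). Second term: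
`(1+2/b)^(m-1) ≤ exp(2(m-1)/b) ≤ exp(2m/b)` (`Real.add_one_le_exp`), `choose n0 2 = n0(n0-1)/2` with `n0 ≥ b/16 - 1 ≥ 3b/64` and
`n0 - 1 ≥ b/16 - 2 ≥ b/32` (as `b ≥ 64`), so it is `≥ b²/2048`. -/
theorem bb_large (m : ℕ) (b κ : ℝ) (hb : 64 ≤ b) (hbm : b ≤ 8 * (m : ℝ))
    (hκ : 8 / b + 2048 * m * Real.exp (2 * m / b) / b ^ 2 ≤ κ) : BB m b κ := by
  have hb0 : 0 < b := by linarith
  have hm8r : (8 : ℝ) ≤ m := by linarith
  have hm8 : 8 ≤ m := by exact_mod_cast hm8r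
  obtain ⟨n0, hn0⟩ : ∃ n0, n0 = ⌊b / 16⌋₊ := ⟨_, rfl⟩
  have hn0le : (n0 : ℝ) ≤ b / 16 := by
    rw [hn0]
    exact Nat.floor_le (by positivity)
  have hn0gt : b / 16 < n0 + 1 := by
    rw [hn0]
    exact Nat.lt_floor_add_one _
  have h2n0 : 2 * n0 ≤ m := by
    have : (2 : ℝ) * n0 ≤ m := by linarith
    exact_mod_cast this
  have hn02 : 2 ≤ n0 := by
    have : (2 : ℝ) < n0 := by linarith
    have : 2 < n0 := by exact_mod_cast this
    omega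
  obtain ⟨j, hj⟩ : ∃ j, j + 1 = m - n0 := ⟨m - n0 - 1, by omega⟩
  refine ⟨n0, by omega, Or.inr ⟨hn02, ?_⟩⟩
  have e1 : m - n0 = j + 1 := hj.symm
  rw [e1, show j + 1 - 1 = j from rfl]
  have hn00 : (0 : ℝ) ≤ n0 := Nat.cast_nonneg _
  have hr0 : 0 ≤ (n0 : ℝ) / b := by positivity
  have hr2 : (n0 : ℝ) / b ≤ 1 / 16 := by
    rw [div_le_div_iff₀ hb0 (by norm_num)]
    linarith
  have hC := n1_choose m n0 (by omega)
  -- first term
  have hfirst : ((m - 1).choose n0 : ℝ) * n0 ^ (j + 1) / b ^ j ≤ 8 / b := by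
    have e3 : (n0 : ℝ) ^ (j + 1) / b ^ j = n0 * (n0 / b) ^ j := by
      rw [div_pow, pow_succ' (n0 : ℝ) j]
      ring
    have hp : ((n0 : ℝ) / b) ^ j ≤ 16 * (1 / 4 ^ m) := by
      have h1 : ((n0 : ℝ) / b) ^ j ≤ (1 / 16) ^ j := pow_le_pow_left₀ hr0 hr2 _
      have h3 := n1_pow16 m (j + 1) (by omega)
      rw [pow_add] at h3
      have h4 : (1 / 16 : ℝ) ^ j = 16 * ((1 / 16) ^ j * (1 / 16) ^ 1) := by ring
      rw [h4] at h1
      linarith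
    rw [mul_div_assoc, e3]
    have h5 : (n0 : ℝ) * (n0 / b) ^ j ≤ (b / 16) * (16 * (1 / 4 ^ m)) :=
      mul_le_mul hn0le hp (by positivity) (by positivity)
    have h6 : ((m - 1).choose n0 : ℝ) * (n0 * (n0 / b) ^ j) ≤
        (2 ^ m / 2) * ((b / 16) * (16 * (1 / 4 ^ m))) :=
      mul_le_mul hC h5 (by positivity) (by positivity)
    have h7 : (2 ^ m / 2) * ((b / 16) * (16 * (1 / 4 ^ m))) = b / (2 * 2 ^ m) := by
      have h8 : (4 : ℝ) ^ m = 2 ^ m * 2 ^ m := by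
        rw [← mul_pow]
        norm_num
      rw [h8]
      field_simp
    have h9 : (4 * (m : ℝ) ^ 2) ≤ 2 ^ m := by exact_mod_cast n1_sq4 m hm8
    have h10 : b / (2 * 2 ^ m) ≤ 8 / b := by
      rw [div_le_div_iff₀ (by positivity) hb0]
      nlinarith
    linarith [h6, h7 ▸ h10]
  -- second term
  have hch : b ^ 2 / 2048 ≤ (n0.choose 2 : ℝ) := by
    rw [Nat.cast_choose_two]
    have h1 : 3 * b / 64 ≤ n0 := by linarith
    have h2 : b / 32 ≤ (n0 : ℝ) - 1 := by linarith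
    have h3 : (3 * b / 64) * (b / 32) ≤ n0 * ((n0 : ℝ) - 1) :=
      mul_le_mul h1 h2 (by positivity) (by positivity)
    nlinarith
  have hsecond : (m : ℝ) * (1 + 2 / b) ^ (m - 1) / (n0.choose 2 : ℝ) ≤
      2048 * m * Real.exp (2 * m / b) / b ^ 2 := by
    have h1 : (1 + 2 / b) ^ (m - 1) ≤ Real.exp (2 * m / b) := by
      have h2 : 1 + 2 / b ≤ Real.exp (2 / b) := by
        have := Real.add_one_le_exp (2 / b)
        linarith
      calc (1 + 2 / b) ^ (m - 1) ≤ Real.exp (2 / b) ^ (m - 1) :=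
            pow_le_pow_left₀ (by positivity) h2 _
        _ = Real.exp (((m - 1 : ℕ) : ℝ) * (2 / b)) := by rw [← Real.exp_nat_mul]
        _ ≤ Real.exp (2 * m / b) := by
          apply Real.exp_le_exp.2
          have h3 : ((m - 1 : ℕ) : ℝ) ≤ m := by exact_mod_cast Nat.sub_le m 1
          have h4 : 2 * (m : ℝ) / b = m * (2 / b) := by ring
          rw [h4]
          exact mul_le_mul_of_nonneg_right h3 (by positivity)
    have h2 : 0 < b ^ 2 / 2048 := by positivity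
    calc (m : ℝ) * (1 + 2 / b) ^ (m - 1) / (n0.choose 2 : ℝ)
        ≤ (m : ℝ) * Real.exp (2 * m / b) / (b ^ 2 / 2048) := by
          apply div_le_div₀ (by positivity) _ h2 hch
          exact mul_le_mul_of_nonneg_left h1 (by positivity)
      _ = 2048 * m * Real.exp (2 * m / b) / b ^ 2 := by
          field_simp
  linarith

end Pool.Agent.Helper60.PCF
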