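import Pool.Agent.Helper60.PCF.Base
import Pool.Agent.Helper60.PCF.St.N1

set_option autoImplicit false
set_option linter.unusedSectionVars false

namespace Pool.Agent.Helper60.PCF

open Finset

/-- PIECE N3 (local numbers). PROOF. `C0 = max 128 (max (400 q) ((16 + 8192 q exp(4q)) * 2q)) + ...` large. Case `8m ≤ b`: `bb_small` with
`100/b ≤ 200/C0 ≤ 1/(2q)`. Case `b < 8m`: `bb_large`; `b ≥ m/(2q)` so `m ≤ 2 q b`, `2m/b ≤ 4q`, and
`8/b + 2048 m exp(2m/b)/b² ≤ (8 + 4096 q exp(4q))/b ≤ (16 + 8192 q exp(4q))/C0 ≤ 1/(2q)`. -/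
theorem bb_local (q : ℕ) (hq : 1 ≤ q) : ∃ C0 : ℝ, 4 ≤ C0 ∧ ∀ (m : ℕ), 3 ≤ m → ∀ b : ℝ,
    ((m : ℝ) / q + C0) / 2 ≤ b → BB m b (1 / (2 * q)) := by
  have hq1 : (1 : ℝ) ≤ q := by exact_mod_cast hq
  have hq0 : (0 : ℝ) < q := by linarith
  have hexp : 0 < Real.exp (4 * q) := Real.exp_pos _
  refine ⟨128 + 400 * q + 4 * q * (8 + 4096 * q * Real.exp (4 * q)), ?_, ?_⟩
  · have h1 : 0 ≤ 4 * (q : ℝ) * (8 + 4096 * q * Real.exp (4 * q)) := by positivity
    linarith
  · intro m hm b hb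
    have hm0 : (0 : ℝ) ≤ m := Nat.cast_nonneg _
    have hmq : 0 ≤ (m : ℝ) / q := by positivity
    have h1 : 0 ≤ 4 * (q : ℝ) * (8 + 4096 * q * Real.exp (4 * q)) := by positivity
    have hb64 : 64 ≤ b := by linarith
    have hb0 : 0 < b := by linarith
    have hb200 : 200 * q ≤ b := by linarith
    have hbE : 2 * q * (8 + 4096 * q * Real.exp (4 * q)) ≤ b := by linarith
    have hbm : (m : ℝ) / q ≤ 2 * b := by linarith
    have hm2 : (m : ℝ) ≤ 2 * b * q := by
      rw [div_le_iff₀ hq0] at hbm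
      exact hbm
    by_cases h8 : 8 * (m : ℝ) ≤ b
    · refine bb_small m hm b _ h8 ?_
      rw [div_le_div_iff₀ hb0 (by positivity)]
      linarith
    · have h8' : b ≤ 8 * (m : ℝ) := by linarith
      refine bb_large m b _ hb64 h8' ?_
      have he : Real.exp (2 * m / b) ≤ Real.exp (4 * q) := by
        apply Real.exp_le_exp.2
        rw [div_le_iff₀ hb0]
        linarith
      have h2 : 2048 * (m : ℝ) * Real.exp (2 * m / b) / b ^ 2 ≤
          (4096 * q * Real.exp (4 * q)) / b := by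
        rw [div_le_div_iff₀ (by positivity) hb0]
        have h3 : (m : ℝ) * Real.exp (2 * m / b) ≤ (2 * b * q) * Real.exp (4 * q) :=
          mul_le_mul hm2 he (Real.exp_pos _).le (by positivity)
        calc 2048 * (m : ℝ) * Real.exp (2 * m / b) * b =
            2048 * b * ((m : ℝ) * Real.exp (2 * m / b)) := by ring
          _ ≤ 2048 * b * ((2 * b * q) * Real.exp (4 * q)) :=
            mul_le_mul_of_nonneg_left h3 (by positivity)
          _ = 4096 * q * Real.exp (4 * q) * b ^ 2 := by ring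
      have h4 : (8 + 4096 * q * Real.exp (4 * q)) / b ≤ 1 / (2 * q) := by
        rw [div_le_div_iff₀ hb0 (by positivity)]
        linarith
      calc 8 / b + 2048 * (m : ℝ) * Real.exp (2 * m / b) / b ^ 2 ≤
          8 / b + (4096 * q * Real.exp (4 * q)) / b := by linarith
        _ = (8 + 4096 * q * Real.exp (4 * q)) / b := by ring
        _ ≤ 1 / (2 * q) := h4

private theorem n2_log : ∃ s0 : ℝ, ∀ s : ℝ, s0 ≤ s → 512 * Real.log s ^ 3 ≤ s := by
  have h := (Real.isLittleO_pow_log_id_atTop (n := 3)).bound (show (0 : ℝ) < 1 / 512 by norm_num)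
  have h2 := h.and (Filter.eventually_ge_atTop (0 : ℝ))
  obtain ⟨s0, hs0⟩ := Filter.eventually_atTop.1 h2
  refine ⟨s0, fun s hs => ?_⟩
  obtain ⟨h3, h4⟩ := hs0 s hs
  simp only [id, Real.norm_eq_abs] at h3
  rw [abs_of_nonneg h4] at h3
  have h5 := le_abs_self (Real.log s ^ 3)
  linarith

/-- PIECE N4 (global numbers). PROOF. `b = 4Δ/log Δ → ∞`. Case `8m ≤ b`: `bb_small`, `100/b = 25 log Δ/Δ ≤ 4/log Δ` for large `Δ`. Case
`b < 8m`, `m ≤ Δ`: `bb_large`: `2m/b ≤ (log Δ)/2`, so `exp(2m/b) ≤ exp((log Δ)/2) = √Δ` and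
`8/b + 2048 m exp(2m/b)/b² ≤ 2 log Δ/Δ + 128 (log Δ)²/√Δ ≤ 4/log Δ` for large `Δ` (`(log Δ)^3 = o(√Δ)`,
`isLittleO_log_rpow_atTop`-style facts, or `Real.log x ≤ 12 x^(1/12)` (`Real.log_le_rpow_div`)). Also `4 < 8Δ/log Δ` for large `Δ`. -/
theorem bb_global : ∃ Δ0 : ℕ, 3 ≤ Δ0 ∧ ∀ Δ : ℕ, Δ0 ≤ Δ → 4 ≤ 8 * (Δ : ℝ) / Real.log Δ ∧
    ∀ m : ℕ, 3 ≤ m → m ≤ Δ → BB m (4 * (Δ : ℝ) / Real.log Δ) (4 / Real.log Δ) := by
  obtain ⟨s0, hs0⟩ := n2_log
  refine ⟨max 3 ⌈(max s0 0) ^ 2⌉₊, le_max_left _ _, ?_⟩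
  intro Δ hΔ
  have h3 : 3 ≤ Δ := le_trans (le_max_left _ _) hΔ
  have hD3 : (3 : ℝ) ≤ Δ := by exact_mod_cast h3
  have hD0 : (0 : ℝ) < Δ := by linarith
  set s : ℝ := Real.sqrt Δ with hs
  have hs2 : s ^ 2 = Δ := Real.sq_sqrt hD0.le
  have hspos : 0 < s := Real.sqrt_pos.2 hD0
  have hs1 : 1 ≤ s := by
    rw [hs, Real.one_le_sqrt]
    linarith
  have hss0 : s0 ≤ s := by
    have h4 : (max s0 0) ^ 2 ≤ (Δ : ℝ) := by
      have h5 : ⌈(max s0 0) ^ 2⌉₊ ≤ Δ := le_trans (le_max_right _ _) hΔ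
      exact le_trans (Nat.le_ceil _) (by exact_mod_cast h5)
    have h6 : max s0 0 ≤ s := by
      rw [hs]
      exact Real.le_sqrt_of_sq_le h4
    exact le_trans (le_max_left _ _) h6
  set L : ℝ := Real.log Δ with hL
  have hLs : L = 2 * Real.log s := by
    rw [hL, ← hs2, Real.log_pow]
    push_cast
    ring
  have hL1 : 1 ≤ L := by
    rw [hL, Real.le_log_iff_exp_le hD0]
    have := Real.exp_one_lt_d9
    linarith
  have hL0 : 0 < L := by linarith
  have hkey : 64 * L ^ 3 ≤ s := by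
    have h7 := hs0 s hss0
    rw [hLs]
    calc 64 * (2 * Real.log s) ^ 3 = 512 * Real.log s ^ 3 := by ring
      _ ≤ s := h7
  have hL2 : L ^ 2 ≤ L ^ 3 := pow_le_pow_right₀ hL1 (by norm_num)
  have hL12 : L ≤ L ^ 2 := by nlinarith
  have hsD : s ≤ Δ := by nlinarith
  refine ⟨?_, ?_⟩
  · rw [le_div_iff₀ hL0]
    nlinarith
  · intro m hm hmD
    have hm0 : (0 : ℝ) ≤ m := Nat.cast_nonneg _
    have hmD' : (m : ℝ) ≤ Δ := by exact_mod_cast hmD
    have hb0 : 0 < 4 * (Δ : ℝ) / L := by positivity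
    by_cases h8 : 8 * (m : ℝ) ≤ 4 * (Δ : ℝ) / L
    · refine bb_small m hm _ _ h8 ?_
      have e1 : 100 / (4 * (Δ : ℝ) / L) = 25 * L / Δ := by
        field_simp
        ring
      rw [e1, div_le_div_iff₀ hD0 hL0]
      nlinarith
    · have h8' : 4 * (Δ : ℝ) / L ≤ 8 * (m : ℝ) := by linarith
      have hb64 : 64 ≤ 4 * (Δ : ℝ) / L := by
        rw [le_div_iff₀ hL0]
        nlinarith
      refine bb_large m _ _ hb64 h8' ?_
      have he : Real.exp (2 * m / (4 * (Δ : ℝ) / L)) ≤ s := by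
        have h9 : 2 * (m : ℝ) / (4 * (Δ : ℝ) / L) ≤ Real.log s := by
          rw [div_le_iff₀ hb0]
          have h10 : Real.log s * (4 * (Δ : ℝ) / L) = 2 * Δ := by
            have h11 : Real.log s = L / 2 := by linarith
            rw [h11]
            field_simp
            ring
          rw [h10]
          linarith
        calc Real.exp (2 * m / (4 * (Δ : ℝ) / L)) ≤ Real.exp (Real.log s) :=
              Real.exp_le_exp.2 h9
          _ = s := Real.exp_log hspos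
      have h12 : 2048 * (m : ℝ) * Real.exp (2 * m / (4 * (Δ : ℝ) / L)) / (4 * (Δ : ℝ) / L) ^ 2 ≤
          128 * L ^ 2 / s := by
        have h13 : (m : ℝ) * Real.exp (2 * m / (4 * (Δ : ℝ) / L)) ≤ Δ * s :=
          mul_le_mul hmD' he (Real.exp_pos _).le hD0.le
        have h14 : (4 * (Δ : ℝ) / L) ^ 2 = 16 * s ^ 4 / L ^ 2 := by
          rw [← hs2]
          field_simp
          ring
        rw [h14, div_le_div_iff₀ (by positivity) hspos]
        have h15 : 128 * L ^ 2 * (16 * s ^ 4 / L ^ 2) = 2048 * s ^ 4 := by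
          field_simp
          ring
        rw [h15]
        calc 2048 * (m : ℝ) * Real.exp (2 * m / (4 * (Δ : ℝ) / L)) * s =
            2048 * s * ((m : ℝ) * Real.exp (2 * m / (4 * (Δ : ℝ) / L))) := by ring
          _ ≤ 2048 * s * (Δ * s) := mul_le_mul_of_nonneg_left h13 (by positivity)
          _ = 2048 * s ^ 4 := by rw [← hs2]; ring
      have h16 : 8 / (4 * (Δ : ℝ) / L) = 2 * L / Δ := by
        field_simp
        ring
      have h17 : 2 * L / (Δ : ℝ) ≤ 2 / L := by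
        rw [div_le_div_iff₀ hD0 hL0]
        nlinarith
      have h18 : 128 * L ^ 2 / s ≤ 2 / L := by
        rw [div_le_div_iff₀ hspos hL0]
        nlinarith
      have h19 : 2 / L + 2 / L = 4 / L := by ring
      rw [h16]
      linarith

end Pool.Agent.Helper60.PCF
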