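import Pool.Agent.Helper60.PCF.Base
import Pool.Agent.Helper60.PCF.St.N2
import Pool.Agent.Helper60.PCF.St.B1
import Pool.Agent.Helper60.PCF.St.B2

set_option autoImplicit false
set_option linter.unusedSectionVars false

namespace Pool.Agent.Helper60.PCF

open Finset

variable {V α : Type} [Fintype V] [DecidableEq V] [DecidableEq α]

/-- proper conflict-free list colouring -/
def IsPCF (G : SimpleGraph V) (L : V → Finset α) (φ : V → α) : Prop :=
  (∀ v, φ v ∈ L v) ∧ (∀ u v, G.Adj u v → φ u ≠ φ v) ∧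
    ∀ v, (∃ u, G.Adj v u) → ∃ c, ∃! u, G.Adj v u ∧ φ u = c

/-- the maximum degree on the closed neighbourhood of `v` -/
def locMax (G : SimpleGraph V) [DecidableRel G.Adj] (v : V) : ℕ :=
  (insert v (G.neighborFinset v)).sup fun w => G.degree w

theorem hasUniq_iff (G : SimpleGraph V) [DecidableRel G.Adj] (v : V) (φ : V → α)
    (h : HasUniq (G.neighborFinset v) φ) : ∃ c, ∃! u, G.Adj v u ∧ φ u = c := by
  obtain ⟨z, hz⟩ := h
  obtain ⟨u, hu⟩ := card_eq_one.mp hz
  refine ⟨z, u, ?_, ?_⟩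
  · have : u ∈ (G.neighborFinset v).filter fun x => φ x = z := by
      rw [hu]
      exact mem_singleton_self _
    rw [mem_filter, SimpleGraph.mem_neighborFinset] at this
    exact this
  · intro y hy
    have : y ∈ (G.neighborFinset v).filter fun x => φ x = z := by
      rw [mem_filter, SimpleGraph.mem_neighborFinset]
      exact hy
    rw [hu, mem_singleton] at this
    exact this

/-- `stageH` + `stageL` -/
theorem main (G : SimpleGraph V) [DecidableRel G.Adj] (L : V → Finset α) (H : Finset V)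
    (β κ : V → ℝ) (hβ : ∀ v ∈ H, 0 < β v) (hκ : ∀ w, 0 ≤ κ w)
    (hcount : ∀ v ∈ H, (G.degree v : ℝ) + β v + ∑ w ∈ G.neighborFinset v, κ w ≤ #(L v))
    (hBB : ∀ w, 3 ≤ #(nbH G H w) → ∃ b : ℝ, 0 < b ∧ (∀ x ∈ nbH G H w, b ≤ β x) ∧
      BB #(nbH G H w) b (κ w))
    (hlow : ∀ v, v ∉ H → 2 * G.degree v + 1 ≤ #(L v)) (hdeg : ∀ w ∈ H, 3 ≤ G.degree w) :
    ∃ φ : V → α, IsPCF G L φ := by
  classical
  rcases isEmpty_or_nonempty V with hV | hV
  · exact ⟨fun v => (hV.false v).elim, fun v => (hV.false v).elim, fun v => (hV.false v).elim,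
      fun v => (hV.false v).elim⟩
  · obtain ⟨v₀⟩ := hV
    have hne : Nonempty α := by
      have h1 : 0 < #(L v₀) := by
        by_cases hv : v₀ ∈ H
        · have h2 := hcount v₀ hv
          have h3 : 0 ≤ ∑ w ∈ G.neighborFinset v₀, κ w := sum_nonneg fun w _ => hκ w
          have h4 : (0 : ℝ) < #(L v₀) := by
            have := hβ v₀ hv
            have h5 : (0 : ℝ) ≤ G.degree v₀ := Nat.cast_nonneg _
            linarith
          exact_mod_cast h4
        · have := hlow v₀ hv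
          omega
      obtain ⟨c, _⟩ := card_pos.mp h1
      exact ⟨c⟩
    obtain ⟨φ₀, h1, h2, h3⟩ := stageH G L H β κ hne hβ hκ hcount hBB
    obtain ⟨φ, h4, h5, h6⟩ := stageL G L H φ₀ h1 h2 h3 hlow hdeg
    exact ⟨φ, h4, h5, fun v hv => hasUniq_iff G v φ (h6 v hv)⟩

end Pool.Agent.Helper60.PCF
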