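import Pool.Agent.Helper60.PCF.St.B3

/-!
Proper conflict-free list colouring of arbitrary graphs from lists whose size exceeds the degree only by a small
fraction of the local maximum degree.
-/

set_option autoImplicit false

namespace Pool.Agent.Helper60.PCF.St.ResEps

open Finset Pool.Agent.Helper60.PCF

/-- For every `ε > 0` there is a constant `C` such that every finite graph `G` with lists of size at least
`d(v) + min (d(v) + 1) (ε D(v) + C)`, where `D(v)` bounds the degrees on the closed neighbourhood of `v`, has a proper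
conflict-free list colouring. -/
theorem thm : ∀ ε : ℝ, 0 < ε → ∃ C : ℝ, ∀ (V α : Type) [Fintype V] [DecidableEq V]
    [DecidableEq α] (G : SimpleGraph V) [DecidableRel G.Adj] (D : V → ℕ) (L : V → Finset α),
    (∀ v, G.degree v ≤ D v) → (∀ v w, G.Adj v w → G.degree w ≤ D v) →
    (∀ v, (G.degree v : ℝ) + min ((G.degree v : ℝ) + 1) (ε * D v + C) ≤ #(L v)) →
    ∃ φ : V → α, (∀ v, φ v ∈ L v) ∧ (∀ u v, G.Adj u v → φ u ≠ φ v) ∧
      ∀ v, (∃ u, G.Adj v u) → ∃ c, ∃! u, G.Adj v u ∧ φ u = c := by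
  intro ε hε
  obtain ⟨q, hq⟩ := exists_nat_gt (1 / ε)
  have hq0 : 0 < q := by
    have h1 : 0 < 1 / ε := by positivity
    have h2 : (0 : ℝ) < q := h1.trans hq
    exact_mod_cast h2
  have hqR : (0 : ℝ) < q := by exact_mod_cast hq0
  have hqε : 1 / (q : ℝ) ≤ ε := by
    rw [div_le_iff₀ hqR]
    rw [div_lt_iff₀ hε] at hq
    linarith
  obtain ⟨C0, hC0, hBBl⟩ := bb_local q hq0
  refine ⟨C0, ?_⟩
  intro V α _ _ _ G _ D L hD1 hD2 hL
  have hDq : ∀ v, (D v : ℝ) / q ≤ ε * D v := by
    intro v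
    have h1 : (0 : ℝ) ≤ D v := Nat.cast_nonneg _
    calc (D v : ℝ) / q = (1 / q) * D v := by ring
      _ ≤ ε * D v := mul_le_mul_of_nonneg_right hqε h1
  have hDq0 : ∀ v, 0 ≤ (D v : ℝ) / q := fun v => div_nonneg (Nat.cast_nonneg _) hqR.le
  set H : Finset V := univ.filter fun v => ε * D v + C0 < (G.degree v : ℝ) + 1 with hH
  refine main G L H (fun v => ((D v : ℝ) / q + C0) / 2) (fun _ => 1 / (2 * q)) ?_ ?_ ?_ ?_ ?_ ?_
  · intro v _
    have := hDq0 v
    show 0 < ((D v : ℝ) / q + C0) / 2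
    linarith
  · intro w
    positivity
  · intro v hv
    rw [hH, mem_filter] at hv
    have h1 := hL v
    rw [min_eq_right hv.2.le] at h1
    have h2 : ∑ w ∈ G.neighborFinset v, (1 / (2 * (q : ℝ))) = (G.degree v : ℝ) * (1 / (2 * q)) := by
      rw [sum_const, SimpleGraph.card_neighborFinset_eq_degree, nsmul_eq_mul]
    have h3 : (G.degree v : ℝ) * (1 / (2 * q)) ≤ (D v : ℝ) / q / 2 := by
      have h4 : (G.degree v : ℝ) ≤ D v := by exact_mod_cast hD1 v
      calc (G.degree v : ℝ) * (1 / (2 * q)) ≤ (D v : ℝ) * (1 / (2 * q)) :=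
            mul_le_mul_of_nonneg_right h4 (by positivity)
        _ = (D v : ℝ) / q / 2 := by ring
    have h5 := hDq v
    show (G.degree v : ℝ) + ((D v : ℝ) / q + C0) / 2 + ∑ w ∈ G.neighborFinset v, (1 / (2 * (q : ℝ)))
      ≤ #(L v)
    rw [h2]
    linarith
  · intro w hw
    have h0 : (0 : ℝ) ≤ (#(nbH G H w) : ℝ) / q := div_nonneg (Nat.cast_nonneg _) hqR.le
    refine ⟨((#(nbH G H w) : ℝ) / q + C0) / 2, by linarith, ?_, hBBl _ hw _ le_rfl⟩
    intro x hx
    have hx' : G.Adj w x := by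
      unfold nbH at hx
      rw [mem_filter, SimpleGraph.mem_neighborFinset] at hx
      exact hx.1
    have h1 : #(nbH G H w) ≤ D x := by
      calc #(nbH G H w) ≤ #(G.neighborFinset w) := card_filter_le _ _
        _ = G.degree w := G.card_neighborFinset_eq_degree w
        _ ≤ D x := hD2 x w hx'.symm
    have h2 : (#(nbH G H w) : ℝ) ≤ D x := by exact_mod_cast h1
    have h3 : (#(nbH G H w) : ℝ) / q ≤ (D x : ℝ) / q := div_le_div_of_nonneg_right h2 hqR.le
    show ((#(nbH G H w) : ℝ) / q + C0) / 2 ≤ ((D x : ℝ) / q + C0) / 2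
    linarith
  · intro v hv
    have hv' : (G.degree v : ℝ) + 1 ≤ ε * D v + C0 := by
      by_contra h
      exact hv (mem_filter.mpr ⟨mem_univ _, not_le.mp h⟩)
    have h1 := hL v
    rw [min_eq_left hv'] at h1
    have h2 : ((2 * G.degree v + 1 : ℕ) : ℝ) ≤ #(L v) := by
      push_cast
      linarith
    exact_mod_cast h2
  · intro w hw
    rw [hH, mem_filter] at hw
    have h1 : 0 ≤ ε * (D w : ℝ) := mul_nonneg hε.le (Nat.cast_nonneg _)
    have h2 : (3 : ℝ) < G.degree w := by linarith [hw.2]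
    have h3 : 3 < G.degree w := by exact_mod_cast h2
    omega

end Pool.Agent.Helper60.PCF.St.ResEps
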