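import Pool.Agent.Helper60.PCF.St.B3

/-!
Proper conflict-free list colouring of arbitrary graphs of maximum degree at most `Δ` from lists of size
`d(v) + O(Δ / log Δ)`.
-/

set_option autoImplicit false

namespace Pool.Agent.Helper60.PCF.St.ResLog

open Finset Pool.Agent.Helper60.PCF

/-- There is a constant `K` such that every finite graph `G` of maximum degree at most `Δ` (`Δ ≥ 2`) with lists of size
at least `d(v) + min (d(v) + 1) (K Δ / log Δ)` has a proper conflict-free list colouring. -/
theorem thm : ∃ K : ℝ, ∀ Δ : ℕ, 2 ≤ Δ → ∀ (V α : Type) [Fintype V] [DecidableEq V]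
    [DecidableEq α] (G : SimpleGraph V) [DecidableRel G.Adj] (L : V → Finset α),
    (∀ v, G.degree v ≤ Δ) →
    (∀ v, (G.degree v : ℝ) + min ((G.degree v : ℝ) + 1) (K * Δ / Real.log Δ) ≤ #(L v)) →
    ∃ φ : V → α, (∀ v, φ v ∈ L v) ∧ (∀ u v, G.Adj u v → φ u ≠ φ v) ∧
      ∀ v, (∃ u, G.Adj v u) → ∃ c, ∃! u, G.Adj v u ∧ φ u = c := by
  obtain ⟨Δ0, hΔ0, hglob⟩ := bb_global
  refine ⟨max 8 (2 * Real.log Δ0), ?_⟩
  intro Δ hΔ V α _ _ _ G _ L hdeg hL
  set K : ℝ := max 8 (2 * Real.log Δ0) with hK
  have hΔR : (2 : ℝ) ≤ Δ := by exact_mod_cast hΔ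
  have hlog : 0 < Real.log Δ := Real.log_pos (by linarith)
  have hK8 : 8 ≤ K := le_max_left _ _
  by_cases hbig : Δ0 ≤ Δ
  · obtain ⟨h4, hBB⟩ := hglob Δ hbig
    have hb0 : 0 < 4 * (Δ : ℝ) / Real.log Δ := by positivity
    have h8 : 8 * (Δ : ℝ) / Real.log Δ ≤ K * Δ / Real.log Δ := by
      apply div_le_div_of_nonneg_right _ hlog.le
      exact mul_le_mul_of_nonneg_right hK8 (by linarith)
    set H : Finset V := univ.filter fun v => K * Δ / Real.log Δ < (G.degree v : ℝ) + 1 with hH
    refine main G L H (fun _ => 4 * (Δ : ℝ) / Real.log Δ) (fun _ => 4 / Real.log Δ)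
      (fun _ _ => hb0) (fun _ => by positivity) ?_ ?_ ?_ ?_
    · intro v hv
      rw [hH, mem_filter] at hv
      have h1 := hL v
      rw [min_eq_right hv.2.le] at h1
      have h2 : ∑ w ∈ G.neighborFinset v, (4 / Real.log Δ) =
          (G.degree v : ℝ) * (4 / Real.log Δ) := by
        rw [sum_const, SimpleGraph.card_neighborFinset_eq_degree, nsmul_eq_mul]
      have h3 : (G.degree v : ℝ) * (4 / Real.log Δ) ≤ 4 * (Δ : ℝ) / Real.log Δ := by
        have h5 : (G.degree v : ℝ) ≤ Δ := by exact_mod_cast hdeg v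
        calc (G.degree v : ℝ) * (4 / Real.log Δ) ≤ (Δ : ℝ) * (4 / Real.log Δ) :=
              mul_le_mul_of_nonneg_right h5 (by positivity)
          _ = 4 * (Δ : ℝ) / Real.log Δ := by ring
      show (G.degree v : ℝ) + 4 * (Δ : ℝ) / Real.log Δ +
        ∑ w ∈ G.neighborFinset v, (4 / Real.log Δ) ≤ #(L v)
      rw [h2]
      have h6 : 8 * (Δ : ℝ) / Real.log Δ = 4 * (Δ : ℝ) / Real.log Δ + 4 * (Δ : ℝ) / Real.log Δ := by
        ring
      linarith
    · intro w hw
      refine ⟨4 * (Δ : ℝ) / Real.log Δ, hb0, fun x _ => le_rfl, hBB _ hw ?_⟩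
      calc #(nbH G H w) ≤ #(G.neighborFinset w) := card_filter_le _ _
        _ = G.degree w := G.card_neighborFinset_eq_degree w
        _ ≤ Δ := hdeg w
    · intro v hv
      have hv' : (G.degree v : ℝ) + 1 ≤ K * Δ / Real.log Δ := by
        by_contra h
        exact hv (mem_filter.mpr ⟨mem_univ _, not_le.mp h⟩)
      have h1 := hL v
      rw [min_eq_left hv'] at h1
      have h2 : ((2 * G.degree v + 1 : ℕ) : ℝ) ≤ #(L v) := by
        push_cast
        linarith
      exact_mod_cast h2
    · intro w hw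
      rw [hH, mem_filter] at hw
      have h2 : (3 : ℝ) < G.degree w := by linarith [hw.2]
      have h3 : 3 < G.degree w := by exact_mod_cast h2
      omega
  · have hK2 : 2 * Real.log Δ0 ≤ K := le_max_right _ _
    have h1 : Real.log Δ ≤ Real.log Δ0 := by
      apply Real.log_le_log (by linarith)
      exact_mod_cast (not_le.mp hbig).le
    have h2 : (Δ : ℝ) + 1 ≤ K * Δ / Real.log Δ := by
      rw [le_div_iff₀ hlog]
      have h3 : 2 * Real.log Δ ≤ K := by linarith
      nlinarith
    refine main G L ∅ (fun _ => 1) (fun _ => 0) ?_ (fun _ => le_rfl) ?_ ?_ ?_ ?_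
    · intro v hv
      exact absurd hv (notMem_empty v)
    · intro v hv
      exact absurd hv (notMem_empty v)
    · intro w hw
      exfalso
      have h3 : nbH G ∅ w = ∅ := by
        unfold nbH
        apply filter_false_of_mem
        intro x _
        exact notMem_empty x
      rw [h3, card_empty] at hw
      omega
    · intro v _
      have h5 : (G.degree v : ℝ) ≤ Δ := by exact_mod_cast hdeg v
      have h6 := hL v
      rw [min_eq_left (by linarith)] at h6
      have h7 : ((2 * G.degree v + 1 : ℕ) : ℝ) ≤ #(L v) := by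
        push_cast
        linarith
      exact_mod_cast h7
    · intro v hv
      exact absurd hv (notMem_empty v)

end Pool.Agent.Helper60.PCF.St.ResLog
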